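import Pool.Agent.Run7.h229.Nak.CC

set_option autoImplicit false
set_option linter.unusedSectionVars false
set_option linter.unusedVariables false
open scoped TensorProduct
open CategoryTheory MulOpposite

/-!
# The algebra

`T` a symmetric algebra with form `lam`, `X` a `T`-module, `Γ = AE T X`, `R = Γ ⊗ T`,
`N = D Γ ⊗ X`, realised as `CN K Γ T X`, and `A = AE R N`.
-/

namespace Pool.Agent.Run7.h229.Nak

open Pool.Agent.Helper426GSC Pool.Agent.Helper426Tach Pool.Agent.Helper426TauT
  Pool.Agent.H546R3.Yam _root_.Run7.h692 _root_.Run7.h692.Eq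

attribute [local instance] CI.acg CI.mod GW.acg GW.mod

section Lin

variable {K V G : Type} [Field K] [AddCommGroup V] [Module K V] [FiniteDimensional K V]
  [AddCommGroup G] [Module K G] [FiniteDimensional K G]

theorem tr_zero (z : G →ₗ[K] V) (h : ∀ ψ : V →ₗ[K] G, LinearMap.trace K V (z ∘ₗ ψ) = 0) :
    z = 0 := by
  apply LinearMap.ext
  intro g
  apply (Module.forall_dual_apply_eq_zero_iff K _).mp
  intro ω
  have h1 : z ∘ₗ (ω.smulRight g) = ω.smulRight (z g) := by
    apply LinearMap.ext
    intro v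
    change z (ω v • g) = ω v • z g
    rw [map_smul]
  have h2 := h (ω.smulRight g)
  rw [h1, LinearMap.trace_smulRight] at h2
  exact h2

theorem exists_tr (ζ : (V →ₗ[K] G) →ₗ[K] K) :
    ∃ z : G →ₗ[K] V, ∀ ψ, LinearMap.trace K V (z ∘ₗ ψ) = ζ ψ := by
  let F : (G →ₗ[K] V) →ₗ[K] ((V →ₗ[K] G) →ₗ[K] K) :=
    LinearMap.mk₂ K (fun z ψ => LinearMap.trace K V (z ∘ₗ ψ))
      (fun z z' ψ => by rw [LinearMap.add_comp, map_add])
      (fun c z ψ => by rw [LinearMap.smul_comp, map_smul])
      (fun z ψ ψ' => by rw [LinearMap.comp_add, map_add])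
      (fun c z ψ => by rw [LinearMap.comp_smul, map_smul])
  have hF : Function.Injective F := by
    rw [injective_iff_map_eq_zero]
    intro z hz
    exact tr_zero z fun ψ => LinearMap.congr_fun hz ψ
  have h3 : Module.finrank K (G →ₗ[K] V) = Module.finrank K ((V →ₗ[K] G) →ₗ[K] K) := by
    rw [Module.finrank_linearMap, Module.finrank_linearMap, Module.finrank_linearMap,
      Module.finrank_self, mul_one, mul_comm]
  obtain ⟨z, hz⟩ := (LinearMap.injective_iff_surjective_of_finrank_eq_finrank h3).mp hF ζ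
  exact ⟨z, fun ψ => LinearMap.congr_fun hz ψ⟩

end Lin

section Pi

variable {K T : Type} [Field K] [Ring T] [Algebra K T] [FiniteDimensional K T]
variable {X : Type} [AddCommGroup X] [Module T X] [Module K X] [IsScalarTower K T X]
  [FiniteDimensional K X]
variable (lam : T →ₗ[K] K) (hlam : ∀ r, (∀ r', lam (r' * r) = 0) → r = 0)
  (hsym : ∀ s t, lam (s * t) = lam (t * s))

include hsym in
theorem phi_tau (s : T) (n : T × X) :
    phi lam (s • n) = (mkA (elt (s, 0)) : AE T X) • phi lam n :=
  phi_nu lam (RingEquiv.refl T) hsym s n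

theorem e_tau (s : T) : eE T X * (mkA (elt (s, 0)) : AE T X) = mkA (elt (s, 0)) := eA_elt _

theorem tau_e (s : T) : (mkA (elt (s, 0)) : AE T X) * eE T X = mkA (elt (s, 0)) := by
  rw [elt_fn, fn_eE]

theorem tau_one : (mkA (elt (1, 0)) : AE T X) = eE T X := by
  apply AE_ext
  intro n
  rw [fn_mkA, elt_apply, fn_eE, Prod.smul_mk, smul_eq_mul, mul_one, smul_zero]

include hlam hsym in
theorem exists_pi : ∃ π : QD K (AE T X) →+ T × X, (∀ n, π (phi lam n) = n) ∧
    (∀ ξ, phi lam (π ξ) = eE T X • ξ) ∧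
    (∀ (s : T) ξ, π ((mkA (elt (s, 0)) : AE T X) • ξ) = s • π ξ) := by
  have hfd : FiniteDimensional K (AE T X) := finite_AE
  have h := pdE (X := X) lam hlam
  let π : QD K (AE T X) →+ T × X := AddMonoidHom.mk' (fun ξ => fn (h.rp ξ) (1, 0))
    (fun ξ ξ' => by rw [h.rp_add, fn_add])
  have h1 : ∀ ξ, phi lam (π ξ) = eE T X • ξ := fun ξ => phi_rp lam h ξ
  refine ⟨π, fun n => ?_, h1, fun s ξ => ?_⟩
  · apply phi_inj lam hlam
    rw [h1, ← tau_one, ← phi_tau lam hsym, one_smul]
  · apply phi_inj lam hlam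
    rw [h1, phi_tau lam hsym, h1, ← mul_smul, ← mul_smul, e_tau, tau_e]

end Pi

section Main

variable {K T : Type} [Field K] [Ring T] [Algebra K T] [FiniteDimensional K T]
variable {X : Type} [AddCommGroup X] [Module T X] [Module K X] [IsScalarTower K T X]
  [FiniteDimensional K X]
variable (lam : T →ₗ[K] K)

/-- the tensor product -/
abbrev RR (K T X : Type) [Field K] [Ring T] [Algebra K T] [AddCommGroup X] [Module T X]
    [Module K X] [IsScalarTower K T X] : Type := TP K (AE T X) T

/-- the module -/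
abbrev NN (K T X : Type) [Field K] [Ring T] [Algebra K T] [AddCommGroup X] [Module T X]
    [Module K X] [IsScalarTower K T X] : Type := CN K (AE T X) T X

/-- the algebra -/
abbrev AA (K T X : Type) [Field K] [Ring T] [Algebra K T] [AddCommGroup X] [Module T X]
    [Module K X] [IsScalarTower K T X] : Type := AE (RR K T X) (NN K T X)

/-- pure elements -/
noncomputable def pe (ξ : QD K (AE T X)) (x : X) : NN K T X := CN.mk
  { toFun := fun γ => Helper426GSC.ev ξ γ • x
    map_add' := fun a b => by rw [ev_add', add_smul]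
    map_smul' := fun c a => by rw [Helper426GSC.ev_smul', mul_smul, RingHom.id_apply] }

theorem pe_ev (ξ : QD K (AE T X)) (x : X) (γ : AE T X) :
    (pe ξ x).ev γ = Helper426GSC.ev ξ γ • x := rfl

theorem pe_add (ξ ξ' : QD K (AE T X)) (x : X) : pe (ξ + ξ') x = pe ξ x + pe ξ' x :=
  CN.ext fun γ => by rw [CN.add_ev, pe_ev, pe_ev, pe_ev, Helper426GSC.ev_add, add_smul]

theorem pe_add' (ξ : QD K (AE T X)) (x x' : X) : pe ξ (x + x') = pe ξ x + pe ξ x' :=
  CN.ext fun γ => by rw [CN.add_ev, pe_ev, pe_ev, pe_ev, smul_add]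

theorem pe_smul (ξ : QD K (AE T X)) (c : K) (x : X) : pe ξ (c • x) = c • pe ξ x :=
  CN.ext fun γ => by rw [CN.ksmul_ev, pe_ev, pe_ev, smul_comm]

theorem pe_smulT (ξ : QD K (AE T X)) (t : T) (x : X) :
    pe ξ (t • x) = (tp K (1 : AE T X) t) • pe ξ x :=
  CN.ext fun γ => by
    rw [CN.rsmul, one_smul, CN.tsmul_ev, pe_ev, pe_ev, comm_of T]

theorem pe_smulG (g : AE T X) (ξ : QD K (AE T X)) (x : X) :
    pe (g • ξ) x = (tp K g (1 : T)) • pe ξ x :=
  CN.ext fun γ => by
    rw [CN.rsmul, one_smul, CN.smul_ev, pe_ev, pe_ev, ev_smul]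

/-- every element is a sum of pure elements -/
theorem pe_sum (n : NN K T X) : n = ∑ i, pe (mkQ ((Module.finBasis K X).coord i ∘ₗ
    (show AE T X →ₗ[K] X from n))) (Module.finBasis K X i) := by
  apply CN.ext
  intro γ
  have h1 : ∀ (s : Finset (Fin (Module.finrank K X))) (f : Fin (Module.finrank K X) → NN K T X),
      (∑ i ∈ s, f i).ev γ = ∑ i ∈ s, (f i).ev γ := by
    intro s f
    exact LinearMap.sum_apply (M := AE T X) (M₂ := X) s f γ
  rw [h1]
  exact ((Module.finBasis K X).sum_repr (n.ev γ)).symm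

/-- the elements of the corner -/
noncomputable def kap (v u : T × X) : RR K T X × NN K T X :=
  (tp K (mkA (elt v) : AE T X) u.1, pe (phi lam v) u.2)

theorem kap_add (v v' u : T × X) : kap lam (v + v') u = kap lam v u + kap lam v' u := by
  refine Prod.ext ?_ ?_
  · change tp K (mkA (elt (v + v')) : AE T X) u.1 = _
    rw [elt_add', tp_add_left]
    rfl
  · change pe (phi lam (v + v')) u.2 = _
    rw [phi_add, pe_add]
    rfl

theorem kap_add' (v u u' : T × X) : kap lam v (u + u') = kap lam v u + kap lam v u' := by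
  refine Prod.ext ?_ ?_
  · change tp K (mkA (elt v) : AE T X) (u.1 + u'.1) = _
    rw [tp_add_right]
    rfl
  · change pe (phi lam v) (u.2 + u'.2) = _
    rw [pe_add']
    rfl

theorem kap_smul (v u : T × X) (c : K) : kap lam v (c • u) = c • kap lam v u := by
  refine Prod.ext ?_ ?_
  · change tp K (mkA (elt v) : AE T X) (c • u.1) = _
    rw [tp_smul_right]
    rfl
  · change pe (phi lam v) (c • u.2) = _
    rw [pe_smul]
    rfl

theorem kap_smulT (v u : T × X) (t : T) :
    kap lam v (t • u) = (tp K (1 : AE T X) t) • kap lam v u := by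
  refine Prod.ext ?_ ?_
  · change tp K (mkA (elt v) : AE T X) (t * u.1) =
      (tp K (1 : AE T X) t) * tp K (mkA (elt v) : AE T X) u.1
    rw [tp_mul, one_mul]
  · change pe (phi lam v) (t • u.2) = _
    rw [pe_smulT]
    rfl

theorem kap_tau (hsym : ∀ s t, lam (s * t) = lam (t * s)) (s : T) (v u : T × X) :
    kap lam (s • v) u = (tp K (mkA (elt (s, 0)) : AE T X) (1 : T)) • kap lam v u := by
  refine Prod.ext ?_ ?_
  · change tp K (mkA (elt (s • v)) : AE T X) u.1 =
      (tp K (mkA (elt (s, 0)) : AE T X) (1 : T)) * tp K (mkA (elt v) : AE T X) u.1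
    rw [tp_mul, one_mul, elt_tau]
  · change pe (phi lam (s • v)) u.2 = _
    rw [phi_tau lam hsym, pe_smulG]
    rfl

/-- the evaluation -/
noncomputable def FF (a : AA K T X) (w : RR K T X × NN K T X) : T × X :=
  fn (lm (AE T X) lam (fn a w).1) (1, 0)

theorem FF_add (a b : AA K T X) (w : RR K T X × NN K T X) :
    FF lam (a + b) w = FF lam a w + FF lam b w := by
  rw [FF, FF, FF, fn_add, Prod.fst_add, map_add, fn_add]

theorem FF_add' (a : AA K T X) (w w' : RR K T X × NN K T X) :
    FF lam a (w + w') = FF lam a w + FF lam a w' := by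
  rw [FF, FF, FF, map_add, Prod.fst_add, map_add, fn_add]

theorem fn_smulK (c : K) (a : AE T X) (n : T × X) : fn (c • a) n = c • fn a n := rfl

theorem FF_smul (c : K) (a : AA K T X) (w : RR K T X × NN K T X) :
    FF lam (c • a) w = c • FF lam a w := by
  have h1 : fn (c • a) w = c • fn a w := rfl
  rw [FF, FF, h1, Prod.smul_fst, map_smul, fn_smulK]

theorem FF_smul' (c : K) (a : AA K T X) (w : RR K T X × NN K T X) :
    FF lam a (c • w) = c • FF lam a w := by
  have h1 : fn a (c • w) = c • fn a w := by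
    rw [← algebraMap_smul (RR K T X) c w, map_smul]
    exact algebraMap_smul (RR K T X) c (fn a w)
  rw [FF, FF, h1, Prod.smul_fst, map_smul, fn_smulK]

theorem FF_G (g : AE T X) (a : AA K T X) (w : RR K T X × NN K T X) :
    FF lam a ((tp K g (1 : T)) • w) = fn (lm (AE T X) lam (fn a w).1) (fn g (1, 0)) := by
  rw [FF, map_smul, Prod.smul_fst, smul_eq_mul, lm_left, fn_mul]

theorem FF_elt (v : T × X) (a : AA K T X) (w : RR K T X × NN K T X) :
    FF lam a ((tp K (mkA (elt v) : AE T X) (1 : T)) • w) = fn (lm (AE T X) lam (fn a w).1) v := by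
  rw [FF_G, fn_mkA, elt_one]

theorem FF_tau (s : T) (a : AA K T X) (w : RR K T X × NN K T X) :
    FF lam a ((tp K (mkA (elt (s, 0)) : AE T X) (1 : T)) • w) = s • FF lam a w := by
  rw [FF_elt, FF, ← map_smul, Prod.smul_mk, smul_eq_mul, mul_one, smul_zero]

/-- the elements of the corner algebra -/
noncomputable def tau (r : RR K T X) : AA K T X := mkA (elt (r, (0 : NN K T X)))

theorem FF_r (r : RR K T X) (a : AA K T X) (w : RR K T X × NN K T X) :
    FF lam (a * tau r) w = fn (lm (AE T X) lam ((fn a w).1 * r)) (1, 0) := by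
  rw [FF, fn_mul, tau, fn_mkA, elt_apply, Prod.smul_fst, smul_eq_mul]

variable (hlam : ∀ r, (∀ r', lam (r' * r) = 0) → r = 0)
  (hsym : ∀ s t, lam (s * t) = lam (t * s))

/-- the pairing -/
noncomputable def Ps : AA K T X →ₗ[K] (T × X →ₗ[K] AE T X) where
  toFun a :=
    { toFun := fun u => mkA
        { toFun := fun v => FF lam a (kap lam v u)
          map_add' := fun v v' => by rw [kap_add, FF_add']
          map_smul' := fun s v => by rw [kap_tau lam hsym, FF_tau, RingHom.id_apply] }
      map_add' := fun u u' => AE_ext fun v => by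
        change FF lam a (kap lam v (u + u')) = FF lam a (kap lam v u) + FF lam a (kap lam v u')
        rw [kap_add', FF_add']
      map_smul' := fun c u => AE_ext fun v => by
        change FF lam a (kap lam v (c • u)) = c • FF lam a (kap lam v u)
        rw [kap_smul, FF_smul'] }
  map_add' a b := LinearMap.ext fun u => AE_ext fun v => by
    change FF lam (a + b) (kap lam v u) = FF lam a (kap lam v u) + FF lam b (kap lam v u)
    rw [FF_add]
  map_smul' c a := LinearMap.ext fun u => AE_ext fun v => by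
    change FF lam (c • a) (kap lam v u) = c • FF lam a (kap lam v u)
    rw [FF_smul]

theorem Ps_fn (a : AA K T X) (u v : T × X) : fn (Ps lam hsym a u) v = FF lam a (kap lam v u) := rfl

theorem Ps_G (g : AE T X) (a : AA K T X) (u : T × X) :
    Ps lam hsym (a * tau (tp K g (1 : T))) u = Ps lam hsym a u * g := by
  apply AE_ext
  intro v
  rw [Ps_fn, FF_r, lm_right, fn_mul, fn_mul, Ps_fn]
  rfl

theorem Ps_T (t : T) (a : AA K T X) (u : T × X) :
    Ps lam hsym (a * tau (tp K (1 : AE T X) t)) u = Ps lam hsym a (t • u) := by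
  apply AE_ext
  intro v
  rw [Ps_fn, FF_r, lm_symm lam hsym, Ps_fn, kap_smulT, FF, map_smul, Prod.smul_fst, smul_eq_mul]

end Main

end Pool.Agent.Run7.h229.Nak
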