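import Pool.Agent.Run7.h229.Nak.Big

set_option autoImplicit false
set_option linter.unusedSectionVars false
set_option linter.unusedVariables false
open scoped TensorProduct
open CategoryTheory MulOpposite

/-!
# Vanishing of Ext for the algebra
-/

namespace Pool.Agent.Run7.h229.Nak

open Pool.Agent.Helper426GSC Pool.Agent.Helper426Tach Pool.Agent.Helper426TauT
  Pool.Agent.H546R3.Yam _root_.Run7.h692 _root_.Run7.h692.Eq

attribute [local instance] CI.acg CI.mod GW.acg GW.mod

section Main

variable {K T : Type} [Field K] [Ring T] [Algebra K T] [FiniteDimensional K T]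
variable {X : Type} [AddCommGroup X] [Module T X] [Module K X] [IsScalarTower K T X]
  [FiniteDimensional K X]
variable (lam : T →ₗ[K] K)
variable (hlam : ∀ r, (∀ r', lam (r' * r) = 0) → r = 0)
  (hsym : ∀ s t, lam (s * t) = lam (t * s))

/-- the coordinates of an element -/
noncomputable def xi (n : NN K T X) (i : Fin (Module.finrank K X)) : QD K (AE T X) :=
  mkQ ((Module.finBasis K X).coord i ∘ₗ (show AE T X →ₗ[K] X from n))

theorem xi_ev (n : NN K T X) (i : Fin (Module.finrank K X)) (γ : AE T X) :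
    Helper426GSC.ev (xi n i) γ = (Module.finBasis K X).coord i (n.ev γ) := rfl

theorem xi_add (n n' : NN K T X) (i : Fin (Module.finrank K X)) :
    xi (n + n') i = xi n i + xi n' i := by
  apply qd_ext
  intro γ
  rw [Helper426GSC.ev_add, xi_ev, xi_ev, xi_ev, CN.add_ev, map_add]

theorem xi_smul (g : AE T X) (n : NN K T X) (i : Fin (Module.finrank K X)) :
    xi ((tp K g (1 : T)) • n) i = g • xi n i := by
  apply qd_ext
  intro γ
  rw [ev_smul, xi_ev, xi_ev, CN.rsmul, one_smul, CN.smul_ev]

theorem xi_pe (ξ : QD K (AE T X)) (x : X) (i : Fin (Module.finrank K X)) :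
    xi (pe ξ x) i = algebraMap K (AE T X) ((Module.finBasis K X).coord i x) • ξ := by
  apply qd_ext
  intro γ
  rw [ev_smul, xi_ev, pe_ev, map_smul, ← Algebra.commutes, ← Algebra.smul_def,
    Helper426GSC.ev_smul', smul_eq_mul, mul_comm]

include hlam hsym in
/-- the pairing is surjective -/
theorem Ps_surj (ψ : T × X →ₗ[K] AE T X) : ∃ a : AA K T X, Ps lam hsym a = ψ := by
  obtain ⟨π, h1, h2, h3⟩ := exists_pi (X := X) lam hlam hsym
  let Φ : QD K (AE T X) → AE T X := fun ξ => mkA
    { toFun := fun n => π ((mkA (elt n) : AE T X) • ξ)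
      map_add' := fun n m => by rw [elt_add', add_smul, map_add]
      map_smul' := fun s n => by rw [← elt_tau, mul_smul, h3, RingHom.id_apply] }
  have hΦ : ∀ ξ n, fn (Φ ξ) n = π ((mkA (elt n) : AE T X) • ξ) := fun _ _ => rfl
  have hΦadd : ∀ ξ ξ', Φ (ξ + ξ') = Φ ξ + Φ ξ' := by
    intro ξ ξ'
    apply AE_ext
    intro n
    rw [fn_add, hΦ, hΦ, hΦ, smul_add, map_add]
  have hΦmul : ∀ (x : AE T X) ξ, Φ (x • ξ) = x * Φ ξ := by
    intro x ξ
    apply AE_ext
    intro n
    rw [fn_mul, hΦ, hΦ, ← mul_smul, elt_fn]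
  have hΦphi : ∀ v, fn (Φ (phi lam v)) (1, 0) = v := by
    intro v
    rw [hΦ, ← phi_tau lam hsym, h1, one_smul]
  let gR : RR K T X →ₗ[K] AE T X := TP.lift
    (LinearMap.mk₂ K (fun (γ : AE T X) (t : T) => γ * ψ (t, 0))
      (fun γ γ' t => add_mul _ _ _) (fun c γ t => smul_mul_assoc _ _ _)
      (fun γ t t' => by
        rw [← mul_add, ← map_add, Prod.mk_add_mk, add_zero])
      (fun c γ t => by
        rw [← mul_smul_comm, ← map_smul, Prod.smul_mk, smul_zero]))
  have hgR : ∀ γ t, gR (tp K γ t) = γ * ψ (t, 0) := fun _ _ => rfl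
  let g : (RR K T X × NN K T X) →+ AE T X := AddMonoidHom.mk'
    (fun w => gR w.1 + ∑ i, Φ (xi w.2 i) * ψ (0, Module.finBasis K X i))
    (fun w w' => by
      have h4 : ∀ i, Φ (xi (w + w').2 i) * ψ (0, Module.finBasis K X i) =
          Φ (xi w.2 i) * ψ (0, Module.finBasis K X i) +
          Φ (xi w'.2 i) * ψ (0, Module.finBasis K X i) := by
        intro i
        rw [Prod.snd_add, xi_add, hΦadd, add_mul]
      rw [Finset.sum_congr rfl fun i _ => h4 i, Finset.sum_add_distrib, Prod.fst_add, map_add]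
      abel)
  have hg0 : ∀ w, g w = gR w.1 + ∑ i, Φ (xi w.2 i) * ψ (0, Module.finBasis K X i) :=
    fun _ => rfl
  have hg : ∀ (x : AE T X) (w : RR K T X × NN K T X), g ((tp K x (1 : T)) • w) = x * g w := by
    intro x w
    have h4 : gR ((tp K x (1 : T)) * w.1) = x * gR w.1 := by
      generalize w.1 = r
      induction r using TP.ind with
      | h0 => rw [mul_zero, map_zero, mul_zero]
      | ht γ t => rw [tp_mul, hgR, hgR, one_mul, mul_assoc]
      | ha r r' h h' => rw [mul_add, map_add, map_add, h, h', mul_add]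
    rw [hg0, hg0, Prod.smul_fst, Prod.smul_snd, smul_eq_mul, h4, mul_add, Finset.mul_sum]
    congr 1
    refine Finset.sum_congr rfl fun i _ => ?_
    rw [xi_smul, hΦmul, mul_assoc]
  obtain ⟨f, hf⟩ := exists_mapR lam hlam g hg
  refine ⟨mkA (LinearMap.inl (RR K T X) (RR K T X) (NN K T X) ∘ₗ f), ?_⟩
  apply LinearMap.ext
  intro u
  apply AE_ext
  intro v
  rw [Ps_fn]
  change fn (lm (AE T X) lam (f (kap lam v u))) (1, 0) = _
  rw [hf, hg0]
  have h5 : gR (kap lam v u).1 = mkA (elt v) * ψ (u.1, 0) := rfl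
  have h6 : ∑ i, Φ (xi (kap lam v u).2 i) * ψ (0, Module.finBasis K X i) =
      Φ (phi lam v) * ψ (0, u.2) := by
    have h7 : (kap lam v u).2 = pe (phi lam v) u.2 := rfl
    have h8 : ψ (0, u.2) = ∑ i, (Module.finBasis K X).coord i u.2 •
        ψ (0, Module.finBasis K X i) := by
      have h9 : ((0 : T), u.2) = ∑ i, (Module.finBasis K X).coord i u.2 •
          ((0 : T), Module.finBasis K X i) := by
        refine Prod.ext ?_ ?_
        · rw [Prod.fst_sum]
          refine (Finset.sum_eq_zero fun i _ => ?_).symm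
          rw [Prod.smul_fst, smul_zero]
        · rw [Prod.snd_sum]
          exact ((Module.finBasis K X).sum_repr u.2).symm
      rw [h9, map_sum]
      refine Finset.sum_congr rfl fun i _ => ?_
      rw [map_smul]
    rw [h7, h8, Finset.mul_sum]
    refine Finset.sum_congr rfl fun i _ => ?_
    rw [xi_pe, hΦmul, ← Algebra.smul_def, smul_mul_assoc, mul_smul_comm]
  rw [h5, h6, fn_add, fn_mul, fn_mul, hΦphi, fn_mkA, elt_one, ← fn_add, ← map_add,
    Prod.mk_add_mk, add_zero, zero_add]

include hlam hsym in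
/-- the kernel of the pairing -/
theorem Ps_ker (a : AA K T X) (ha : Ps lam hsym a = 0) (w : RR K T X × NN K T X) :
    (fn a w).1 = 0 := by
  obtain ⟨π, h1, h2, h3⟩ := exists_pi (X := X) lam hlam hsym
  have h4 : ∀ v u, FF lam a (kap lam v u) = 0 := by
    intro v u
    rw [← Ps_fn lam hsym, ha]
    rfl
  have h5 : ∀ w : RR K T X × NN K T X, lm (AE T X) lam (fn a w).1 = 0 := by
    intro w
    have e1 : w = (w.1, 0) + (0, w.2) := by rw [Prod.mk_add_mk, add_zero, zero_add]
    have e2 : lm (AE T X) lam (fn a (w.1, 0)).1 = 0 := by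
      generalize w.1 = r
      induction r using TP.ind with
      | h0 =>
        have : ((0 : RR K T X), (0 : NN K T X)) = 0 := rfl
        rw [this, map_zero]
        exact map_zero _
      | ht γ t =>
        apply AE_ext
        intro v
        rw [← FF_elt, fn_zero]
        have h6 : (tp K (mkA (elt v) : AE T X) (1 : T)) • ((tp K γ t : RR K T X), (0 : NN K T X)) =
            kap lam (fn γ v) (t, 0) := by
          refine Prod.ext ?_ ?_
          · change (tp K (mkA (elt v) : AE T X) (1 : T)) * tp K γ t =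
              tp K (mkA (elt (fn γ v)) : AE T X) t
            rw [tp_mul, one_mul, elt_fn]
          · change (tp K (mkA (elt v) : AE T X) (1 : T)) • (0 : NN K T X) =
              pe (phi lam (fn γ v)) (0 : X)
            rw [smul_zero]
            apply CN.ext
            intro x
            rw [pe_ev, smul_zero, CN.zero_ev]
        rw [h6, h4]
      | ha r r' h h' =>
        have h6 : ((r + r' : RR K T X), (0 : NN K T X)) = (r, 0) + (r', 0) := by
          rw [Prod.mk_add_mk, add_zero]
        rw [h6, map_add, Prod.fst_add, map_add, h, h', add_zero]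
    have e3 : lm (AE T X) lam (fn a (0, w.2)).1 = 0 := by
      have h7 : ∀ (ξ : QD K (AE T X)) (x : X),
          lm (AE T X) lam (fn a (0, pe ξ x)).1 = 0 := by
        intro ξ x
        apply AE_ext
        intro v
        rw [← FF_elt, fn_zero]
        have h6 : (tp K (mkA (elt v) : AE T X) (1 : T)) • ((0 : RR K T X), pe ξ x) =
            kap lam (π ((mkA (elt v) : AE T X) • ξ)) (0, x) := by
          refine Prod.ext ?_ ?_
          · change (tp K (mkA (elt v) : AE T X) (1 : T)) * (0 : RR K T X) = tp K _ (0 : T)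
            rw [mul_zero, tp_zero_right]
          · change (tp K (mkA (elt v) : AE T X) (1 : T)) • pe ξ x = pe (phi lam (π _)) x
            rw [h2, ← mul_smul, eA_elt, pe_smulG]
        rw [h6, h4]
      rw [pe_sum w.2]
      have h8 : ∀ (s : Finset (Fin (Module.finrank K X))) (f : Fin (Module.finrank K X) → NN K T X),
          ((0 : RR K T X), ∑ i ∈ s, f i) = ∑ i ∈ s, ((0 : RR K T X), f i) := by
        intro s f
        refine Prod.ext ?_ ?_
        · rw [Prod.fst_sum]
          exact (Finset.sum_eq_zero fun i _ => rfl).symm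
        · rw [Prod.snd_sum]
      rw [h8, map_sum, Prod.fst_sum, map_sum]
      exact Finset.sum_eq_zero fun i _ => h7 _ _
    rw [e1, map_add, Prod.fst_add, map_add, e2, e3, add_zero]
  apply lm_inj lam hlam
  intro t
  have h6 := h5 ((tp K (1 : AE T X) t) • w)
  rw [map_smul, Prod.smul_fst, smul_eq_mul] at h6
  exact h6

/-- the auxiliary module -/
abbrev ZZ (K T X : Type) [Field K] [Ring T] [Algebra K T] [AddCommGroup X] [Module T X]
    [Module K X] [IsScalarTower K T X] : Type := CN K (AE T X) T (T × X)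

/-- the map to the dual of the algebra -/
noncomputable def jj : ZZ K T X →+ QD K (AA K T X) := AddMonoidHom.mk'
  (fun z => mkQ
    { toFun := fun a => LinearMap.trace K (T × X) ((show AE T X →ₗ[K] (T × X) from z) ∘ₗ
        Ps lam hsym a)
      map_add' := fun a b => by rw [map_add, LinearMap.comp_add, map_add]
      map_smul' := fun c a => by rw [map_smul, LinearMap.comp_smul, map_smul]; rfl })
  (fun z z' => by
    apply qd_ext
    intro a
    change LinearMap.trace K (T × X) (((show AE T X →ₗ[K] (T × X) from z) +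
      (show AE T X →ₗ[K] (T × X) from z')) ∘ₗ Ps lam hsym a) = _
    rw [LinearMap.add_comp, map_add]
    rfl)

theorem jj_ev (z : ZZ K T X) (a : AA K T X) : Helper426GSC.ev (jj lam hsym z) a =
    LinearMap.trace K (T × X) ((show AE T X →ₗ[K] (T × X) from z) ∘ₗ Ps lam hsym a) := rfl

theorem jj_G (g : AE T X) (z : ZZ K T X) :
    jj lam hsym ((tp K g (1 : T)) • z) = tau (tp K g (1 : T)) • jj lam hsym z := by
  apply qd_ext
  intro a
  rw [ev_smul, jj_ev, jj_ev, CN.rsmul, one_smul]
  congr 1
  apply LinearMap.ext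
  intro u
  change z.ev (Ps lam hsym a u * g) = z.ev (Ps lam hsym (a * tau (tp K g (1 : T))) u)
  rw [Ps_G]

theorem jj_T (t : T) (z : ZZ K T X) :
    jj lam hsym ((tp K (1 : AE T X) t) • z) = tau (tp K (1 : AE T X) t) • jj lam hsym z := by
  apply qd_ext
  intro a
  rw [ev_smul, jj_ev, jj_ev, CN.rsmul, one_smul]
  let m : T × X →ₗ[K] T × X :=
    { toFun := fun v => t • v
      map_add' := fun v v' => smul_add _ _ _
      map_smul' := fun c v => comm_of T c t v }
  have e1 : (show AE T X →ₗ[K] (T × X) from t • z) ∘ₗ Ps lam hsym a =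
      m ∘ₗ ((show AE T X →ₗ[K] (T × X) from z) ∘ₗ Ps lam hsym a) := LinearMap.ext fun u => rfl
  have e2 : (show AE T X →ₗ[K] (T × X) from z) ∘ₗ Ps lam hsym (a * tau (tp K (1 : AE T X) t)) =
      ((show AE T X →ₗ[K] (T × X) from z) ∘ₗ Ps lam hsym a) ∘ₗ m := by
    apply LinearMap.ext
    intro u
    change z.ev (Ps lam hsym (a * tau (tp K (1 : AE T X) t)) u) = z.ev (Ps lam hsym a (t • u))
    rw [Ps_T]
  rw [e1, e2]
  exact LinearMap.trace_mul_comm K _ _

theorem tau_add (r r' : RR K T X) : tau (r + r') = tau r + tau r' := by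
  have h1 : (r + r', (0 : NN K T X)) = (r, 0) + (r', 0) := by rw [Prod.mk_add_mk, add_zero]
  rw [tau, h1, elt_add']
  rfl

theorem tau_mul (r r' : RR K T X) : tau r * tau r' = tau (r * r') := by
  rw [tau, tau, elt_tau, Prod.smul_mk, smul_eq_mul, smul_zero]
  rfl

theorem tau_zero : tau (0 : RR K T X) = 0 := by
  apply AE_ext
  intro n
  rw [tau, fn_mkA, elt_apply]
  exact smul_zero _

theorem jj_smul (r : RR K T X) (z : ZZ K T X) :
    jj lam hsym (r • z) = tau r • jj lam hsym z := by
  induction r using TP.ind with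
  | h0 => rw [zero_smul, map_zero, tau_zero, zero_smul]
  | ht g t =>
    have h1 : (tp K g t : RR K T X) = (tp K g (1 : T)) * (tp K (1 : AE T X) t) := by
      rw [tp_mul, mul_one, one_mul]
    rw [h1, mul_smul, jj_G, jj_T, ← mul_smul, tau_mul]
  | ha r r' h h' => rw [add_smul, map_add, h, h', tau_add, add_smul]

include hlam in
theorem jj_inj : Function.Injective (jj (X := X) lam hsym) := by
  have hfd : FiniteDimensional K (AE T X) := finite_AE
  rw [injective_iff_map_eq_zero]
  intro z hz
  apply tr_zero (V := T × X) (G := AE T X) (show AE T X →ₗ[K] (T × X) from z)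
  intro ψ
  obtain ⟨a, rfl⟩ := Ps_surj lam hlam hsym ψ
  rw [← jj_ev, hz, Helper426GSC.ev_zero]

include hlam in
theorem jj_surj (φ : QD K (AA K T X)) :
    ∃ z, jj lam hsym z = eE (RR K T X) (NN K T X) • φ := by
  have hfd : FiniteDimensional K (AE T X) := finite_AE
  have hs : Function.Surjective (Ps (X := X) lam hsym) := fun ψ => Ps_surj lam hlam hsym ψ
  obtain ⟨σ, hσ⟩ := (Ps (X := X) lam hsym).exists_rightInverse_of_surjective
    (LinearMap.range_eq_top.mpr hs)
  let μ : AA K T X →ₗ[K] K :=
    { toFun := fun a => Helper426GSC.ev φ (a * eE (RR K T X) (NN K T X))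
      map_add' := fun a b => by rw [add_mul, ev_add']
      map_smul' := fun c a => by rw [smul_mul_assoc, Helper426GSC.ev_smul']; rfl }
  have hμ : ∀ a, Ps lam hsym a = 0 → μ a = 0 := by
    intro a ha
    have h1 : a * eE (RR K T X) (NN K T X) = 0 := by
      apply AE_ext
      intro w
      rw [fn_mul, fn_eE, Ps_ker lam hlam hsym a ha]
      rfl
    change Helper426GSC.ev φ (a * eE (RR K T X) (NN K T X)) = 0
    rw [h1, ev_zero']
  obtain ⟨z, hz⟩ := exists_tr (V := T × X) (G := AE T X) (μ ∘ₗ σ)
  refine ⟨CN.mk z, ?_⟩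
  apply qd_ext
  intro a
  rw [ev_smul]
  refine (hz (Ps lam hsym a)).trans ?_
  change μ (σ (Ps lam hsym a)) = μ a
  rw [← sub_eq_zero, ← map_sub]
  apply hμ
  rw [map_sub, sub_eq_zero]
  exact LinearMap.congr_fun hσ (Ps lam hsym a)

include hlam hsym in
/-- vanishing of Ext -/
theorem ev_AA (hX : EV T X X) : EV (AA K T X) (QD K (AA K T X)) (AA K T X) := by
  have hfd : FiniteDimensional K (AE T X) := finite_AE
  have hfX : Module.Finite T X := Module.Finite.of_restrictScalars_finite K T X
  have hinj : Module.Injective T T := frob_injective lam hlam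
  have hproj : Module.Projective T T := inferInstance
  have hJ : EV (AE T X) (QD K (AE T X)) (AE T X) :=
    (cd_E lam hlam (RingEquiv.refl T) hsym (AddEquiv.refl X) (fun t n => rfl) hX hX).tach
  have hV : EV T (T × X) X := fun n => EX.prodL (EX.proj hproj) (hX n)
  have hpR : Module.Projective (RR K T X) (RR K T X) := inferInstance
  have hTs : ∀ (Y : Type) [AddCommGroup Y] [Module K Y] [Module T Y] [IsScalarTower K T Y]
      (t : T) (s : CN K (AE T X) T Y), (tp K (1 : AE T X) t) • s = t • s := by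
    intro Y _ _ _ _ t s
    rw [CN.rsmul, one_smul]
  have hGs : ∀ (Y : Type) [AddCommGroup Y] [Module K Y] [Module T Y] [IsScalarTower K T Y]
      (g : AE T X) (s : CN K (AE T X) T Y), (tp K g (1 : T)) • s = g • s := by
    intro Y _ _ _ _ t s
    rw [CN.rsmul, one_smul]
  have hNR : EV (RR K T X) (NN K T X) (RR K T X) := exReg lam hlam (hGs X) (CN.exG hJ)
  have hNN : EV (RR K T X) (NN K T X) (NN K T X) := exCN (hTs X) (CN.exT hX)
  have hZR : EV (RR K T X) (ZZ K T X) (RR K T X) := exReg lam hlam (hGs (T × X)) (CN.exG hJ)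
  have hZN : EV (RR K T X) (ZZ K T X) (NN K T X) := exCN (hTs (T × X)) (CN.exT hV)
  have hfN : Module.Finite (RR K T X) (NN K T X) :=
    Module.Finite.of_restrictScalars_finite K (RR K T X) (NN K T X)
  exact ev_reg K (jj lam hsym) (jj_smul lam hsym) (jj_inj lam hlam hsym) (jj_surj lam hlam hsym)
    (fun n => EX.prodL (EX.proj hpR) (EX.prodR (hNR n) (hNN n)))
    (fun n => EX.prodR (hZR n) (hZN n))

end Main

end Pool.Agent.Run7.h229.Nak
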