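import Pool.Agent.Run7.h229.Nak.TM

set_option autoImplicit false
set_option linter.unusedSectionVars false
set_option linter.unusedVariables false
open scoped TensorProduct
open CategoryTheory MulOpposite

/-!
# Vanishing of Ext over a tensor product of algebras
-/

namespace Pool.Agent.Run7.h229.Nak

open Pool.Agent.Helper426GSC Pool.Agent.Helper426Tach Pool.Agent.Helper426TauT
  Pool.Agent.H546R3.Yam _root_.Run7.h692 _root_.Run7.h692.Eq

attribute [local instance] CI.acg CI.mod

section T

variable {K G T Y : Type} [Field K] [Ring G] [Algebra K G] [Ring T] [Algebra K T]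
  [AddCommGroup Y] [Module K Y] [Module T Y] [IsScalarTower K T Y]

/-- Ext with values in a coinduced module -/
theorem exCN [FiniteDimensional K G] {S : Type} [AddCommGroup S] [Module (TP K G T) S]
    [Module T S] (hS : ∀ (t : T) (s : S), (tp K (1 : G) t) • s = t • s) (h : EV T S Y) :
    EV (TP K G T) S (CN K G T Y) := by
  intro n
  have h1 : EX (TP K G T) n S (CI (iT K G T) Y) :=
    CI.ev_of (φ := iT K G T) (bijT (Module.finBasis K G)) hS n Y h
  let s : CN K G T Y →ₗ[TP K G T] CI (iT K G T) Y :=
    { toFun := fun f => CI.mk (AddMonoidHom.mk' (fun l => (l • f).ev 1) (fun l l' => by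
        rw [add_smul, CN.add_ev])) (fun t l => by
        change ((iT K G T t * l) • f).ev 1 = t • (l • f).ev 1
        rw [mul_smul, iT_apply, CN.rsmul, one_smul, CN.tsmul_ev])
      map_add' := fun f g => CI.ext fun l => by
        change (l • (f + g)).ev 1 = (l • f).ev 1 + (l • g).ev 1
        rw [smul_add, CN.add_ev]
      map_smul' := fun l' f => CI.ext fun l => by
        change (l • (l' • f)).ev 1 = ((l * l') • f).ev 1
        rw [mul_smul] }
  let r : CI (iT K G T) Y →ₗ[TP K G T] CN K G T Y :=
    { toFun := fun F => CN.mk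
        { toFun := fun x => F.ev (tp K x (1 : T))
          map_add' := fun x y => by rw [tp_add_left, CI.ev_add']
          map_smul' := fun c x => by
            have h2 : tp K (c • x) (1 : T) = iT K G T (algebraMap K T c) * tp K x (1 : T) := by
              rw [iT_apply, tp_mul, one_mul, mul_one, tp_smul_left,
                Algebra.algebraMap_eq_smul_one, tp_smul_right]
            rw [h2, CI.ev_smul_left, algebraMap_smul, RingHom.id_apply] }
      map_add' := fun f g => rfl
      map_smul' := fun l F => CN.ext fun x => by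
        rw [RingHom.id_apply, CN.ev_mk]
        change F.ev ((tp K x (1 : T)) * l) = _
        induction l using TP.ind with
        | h0 =>
          rw [mul_zero, zero_smul, CN.zero_ev]; exact map_zero F.1
        | ht g t =>
          rw [CN.rsmul, CN.smul_ev, CN.tsmul_ev, CN.ev_mk]
          change _ = t • F.ev (tp K (x * g) (1 : T))
          rw [← CI.ev_smul_left, iT_apply, tp_mul, tp_mul, one_mul, mul_one, one_mul]
        | ha r r' h h' =>
          rw [mul_add, CI.ev_add', h, h', add_smul, CN.add_ev] }
  refine h1.retrR s r fun f => CN.ext fun x => ?_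
  change ((tp K x (1 : T)) • f).ev 1 = f.ev x
  rw [CN.rsmul, one_smul, CN.smul_ev, one_mul]

end T

section G

variable {K G T : Type} [Field K] [Ring G] [Algebra K G] [Ring T] [Algebra K T]
variable (lam : T →ₗ[K] K)

variable (G) in
/-- the form, with values in `G` -/
noncomputable def lm : TP K G T →ₗ[K] G :=
  TP.lift (LinearMap.mk₂ K (fun (g : G) (t : T) => lam t • g)
    (fun g g' t => smul_add _ _ _) (fun c g t => smul_comm _ _ _)
    (fun g t t' => by rw [map_add, add_smul]) (fun c g t => by rw [map_smul, smul_assoc]))

theorem lm_tmul (g : G) (t : T) : lm G lam (tp K g t) = lam t • g := rfl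

theorem lm_left (g : G) (r : TP K G T) : lm G lam (tp K g (1 : T) * r) = g * lm G lam r := by
  induction r using TP.ind with
  | h0 =>
    rw [mul_zero, map_zero, mul_zero]
  | ht g' t =>
    rw [tp_mul, one_mul, lm_tmul, lm_tmul, mul_smul_comm]
  | ha r r' h h' =>
    rw [mul_add, map_add, map_add, h, h', mul_add]

theorem lm_right (g : G) (r : TP K G T) : lm G lam (r * tp K g (1 : T)) = lm G lam r * g := by
  induction r using TP.ind with
  | h0 =>
    rw [zero_mul, map_zero, zero_mul]
  | ht g' t =>
    rw [tp_mul, mul_one, lm_tmul, lm_tmul, smul_mul_assoc]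
  | ha r r' h h' =>
    rw [add_mul, map_add, map_add, h, h', add_mul]

theorem lm_symm (hsym : ∀ s t, lam (s * t) = lam (t * s)) (t : T) (r : TP K G T) :
    lm G lam (r * tp K (1 : G) t) = lm G lam (tp K (1 : G) t * r) := by
  induction r using TP.ind with
  | h0 =>
    rw [zero_mul, mul_zero]
  | ht g' t' =>
    rw [tp_mul, tp_mul, mul_one, one_mul, lm_tmul, lm_tmul, hsym]
  | ha r r' h h' =>
    rw [add_mul, map_add, h, h', mul_add, map_add]

variable [FiniteDimensional K T] (hlam : ∀ r, (∀ r', lam (r' * r) = 0) → r = 0)

include hlam in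
theorem exists_dual {n : ℕ} (b : Module.Basis (Fin n) K T) :
    ∃ c : Fin n → T, (∀ i j, lam (b i * c j) = if i = j then 1 else 0) ∧
      ∀ t : T, t = ∑ j, lam (b j * t) • c j := by
  have hb := pairing_bij lam hlam
  choose c hc using fun j => hb.2 (b.coord j)
  have hc' : ∀ i j, lam (b i * c j) = if i = j then 1 else 0 := by
    intro i j
    have h1 : lam (b i * c j) = b.coord j (b i) := LinearMap.congr_fun (hc j) (b i)
    rw [h1, Module.Basis.coord_apply, Module.Basis.repr_self, Finsupp.single_apply]
  refine ⟨c, hc', fun t => ?_⟩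
  apply hb.1
  apply b.ext
  intro i
  change lam (b i * t) = lam (b i * ∑ j, lam (b j * t) • c j)
  rw [Finset.mul_sum, map_sum, Finset.sum_eq_single i]
  · rw [mul_smul_comm, map_smul, hc', if_pos rfl, smul_eq_mul, mul_one]
  · intro j _ hij
    rw [mul_smul_comm, map_smul, hc', if_neg (Ne.symm hij), smul_zero]
  · intro h; exact absurd (Finset.mem_univ i) h

include hlam in
theorem lm_inj {r : TP K G T} (h : ∀ t : T, lm G lam (tp K (1 : G) t * r) = 0) : r = 0 := by
  obtain ⟨c, hc, hc'⟩ := exists_dual lam hlam (Module.finBasis K T)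
  have h1 : r = ∑ j, tp K (lm G lam (tp K (1 : G) (Module.finBasis K T j) * r)) (c j) := by
    clear h
    induction r using TP.ind with
    | h0 =>
      rw [Finset.sum_eq_zero]
      intro j _
      rw [mul_zero, map_zero, tp_zero_left]
    | ht g t =>
      conv_lhs => rw [hc' t, tp_sum_right]
      refine Finset.sum_congr rfl fun j _ => ?_
      rw [tp_mul, one_mul, lm_tmul, tp_smul_left, tp_smul_right]
    | ha r r' h h' =>
      conv_lhs => rw [h, h']
      rw [← Finset.sum_add_distrib]
      refine Finset.sum_congr rfl fun j _ => ?_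
      rw [mul_add, map_add, tp_add_left]
  rw [h1]
  refine Finset.sum_eq_zero fun j _ => ?_
  rw [h, tp_zero_left]

/-- the regular module as a coinduced module -/
noncomputable def sG : TP K G T →ₗ[TP K G T] CI (iG K G T) G where
  toFun r := CI.mk (AddMonoidHom.mk' (fun l => lm G lam (l * r)) (fun l l' => by
    rw [add_mul, map_add])) (fun g l => by
      change lm G lam (iG K G T g * l * r) = g * lm G lam (l * r)
      rw [mul_assoc, iG_apply, lm_left])
  map_add' r r' := CI.ext fun l => by
    change lm G lam (l * (r + r')) = lm G lam (l * r) + lm G lam (l * r')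
    rw [mul_add, map_add]
  map_smul' l' r := CI.ext fun l => by
    change lm G lam (l * (l' * r)) = lm G lam (l * l' * r)
    rw [mul_assoc]

theorem sG_ev (r l : TP K G T) : (sG lam r).ev l = lm G lam (l * r) := rfl

include hlam in
theorem sG_bij : Function.Bijective (sG (G := G) lam) := by
  constructor
  · rw [injective_iff_map_eq_zero]
    intro r hr
    apply lm_inj lam hlam
    intro t
    rw [← sG_ev, hr, CI.ev_zero]
  · intro F
    obtain ⟨c, hc, hc'⟩ := exists_dual lam hlam (Module.finBasis K T)
    refine ⟨∑ j, tp K (F.ev (tp K (1 : G) (Module.finBasis K T j))) (c j), ?_⟩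
    apply CI.ext_b (bijG (G := G) (Module.finBasis K T))
    intro i
    rw [sG_ev, Finset.mul_sum, map_sum, Finset.sum_eq_single i]
    · rw [tp_mul, one_mul, lm_tmul, hc, if_pos rfl, one_smul]
    · intro j _ hij
      rw [tp_mul, one_mul, lm_tmul, hc, if_neg (Ne.symm hij),
        zero_smul]
    · intro h; exact absurd (Finset.mem_univ i) h

include hlam in
/-- Ext with values in the regular module -/
theorem exReg {S : Type} [AddCommGroup S] [Module (TP K G T) S]
    [Module G S] (hS : ∀ (g : G) (s : S), (tp K g (1 : T)) • s = g • s) (h : EV G S G) :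
    EV (TP K G T) S (TP K G T) := by
  intro n
  have h1 : EX (TP K G T) n S (CI (iG K G T) G) :=
    CI.ev_of (φ := iG K G T) (bijG (Module.finBasis K T)) hS n G h
  let e := LinearEquiv.ofBijective (sG (G := G) lam) (sG_bij lam hlam)
  exact h1.retrR e.toLinearMap e.symm.toLinearMap fun y => e.symm_apply_apply y

include hlam in
/-- linear maps to the regular module from linear maps to `G` -/
theorem exists_mapR {S : Type} [AddCommGroup S] [Module (TP K G T) S]
    (g : S →+ G) (hg : ∀ (x : G) (s : S), g ((tp K x (1 : T)) • s) = x * g s) :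
    ∃ f : S →ₗ[TP K G T] TP K G T, ∀ s, lm G lam (f s) = g s := by
  let e := LinearEquiv.ofBijective (sG (G := G) lam) (sG_bij lam hlam)
  let f0 : S →ₗ[TP K G T] CI (iG K G T) G :=
    { toFun := fun s => CI.mk (AddMonoidHom.mk' (fun l => g (l • s)) (fun l l' => by
        rw [add_smul, map_add])) (fun x l => by
          change g ((iG K G T x * l) • s) = x * g (l • s)
          rw [mul_smul, iG_apply, hg])
      map_add' := fun s s' => CI.ext fun l => by
        change g (l • (s + s')) = g (l • s) + g (l • s')
        rw [smul_add, map_add]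
      map_smul' := fun l' s => CI.ext fun l => by
        change g (l • l' • s) = g ((l * l') • s)
        rw [mul_smul] }
  refine ⟨e.symm.toLinearMap ∘ₗ f0, fun s => ?_⟩
  have h1 : (e (e.symm (f0 s))).ev 1 = (f0 s).ev 1 := by rw [LinearEquiv.apply_symm_apply]
  have h2 : (e (e.symm (f0 s))).ev 1 = lm G lam (1 * e.symm (f0 s)) := rfl
  have h3 : (f0 s).ev 1 = g ((1 : TP K G T) • s) := rfl
  rw [h2, one_mul, h3, one_smul] at h1
  exact h1

end G

end Pool.Agent.Run7.h229.Nak
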