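import Pool.Agent.Run7.h229.Nak.Big2

set_option autoImplicit false
set_option linter.unusedSectionVars false
set_option linter.unusedVariables false
open scoped TensorProduct
open CategoryTheory MulOpposite

/-!
# The algebra does not embed into a projective-injective module
-/

namespace Pool.Agent.Run7.h229.Nak

open Pool.Agent.Helper426GSC Pool.Agent.Helper426Tach Pool.Agent.Helper426TauT
  Pool.Agent.H546R3.Yam _root_.Run7.h692 _root_.Run7.h692.Eq

attribute [local instance] CI.acg CI.mod GW.acg GW.mod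

section Main

variable {K T : Type} [Field K] [Ring T] [Algebra K T] [FiniteDimensional K T]
variable {X : Type} [AddCommGroup X] [Module T X] [Module K X] [IsScalarTower K T X]
  [FiniteDimensional K X]

/-- a functional on `Γ` killed by the right ideal -/
theorem exists_s (hX : ¬ Module.Projective T X) :
    ∃ s : QD K (AE T X), s ≠ 0 ∧ ∀ v : T × X, (mkA (elt v) : AE T X) • s = 0 := by
  let I : Submodule K (AE T X) :=
    Submodule.span K {γ | ∃ (a : AE T X) (v : T × X), γ = a * mkA (elt v)}
  have hI : I < ⊤ := by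
    rw [lt_top_iff_ne_top]
    intro hI
    apply hX
    have key : ∀ γ ∈ I, ∃ (F : Type) (_ : AddCommGroup F) (_ : Module T F)
        (_ : Module.Projective T F) (α : (T × X) →ₗ[T] F) (β : F →ₗ[T] (T × X)),
        ∀ x, β (α x) = fn γ x := by
      intro γ hγ
      induction hγ using Submodule.span_induction with
      | mem γ h =>
        obtain ⟨a, v, rfl⟩ := h
        exact ⟨T, inferInstance, inferInstance, inferInstance, LinearMap.fst T T X ∘ₗ fn a,
          LinearMap.toSpanSingleton T (T × X) v, fun x => rfl⟩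
      | zero =>
        exact ⟨T, inferInstance, inferInstance, inferInstance, 0, 0, fun x => rfl⟩
      | add γ γ' _ _ h h' =>
        obtain ⟨F, i1, i2, i3, α, β, hab⟩ := h
        obtain ⟨F', j1, j2, j3, α', β', hab'⟩ := h'
        refine ⟨F × F', inferInstance, inferInstance, inferInstance, α.prod α',
          β.coprod β', fun x => ?_⟩
        change β (α x) + β' (α' x) = fn γ x + fn γ' x
        rw [hab, hab']
      | smul c γ _ h =>
        obtain ⟨F, i1, i2, i3, α, β, hab⟩ := h
        let m : T × X →ₗ[T] T × X :=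
          { toFun := fun v => c • v
            map_add' := fun v v' => smul_add _ _ _
            map_smul' := fun t v => (comm_of T c t v).symm }
        refine ⟨F, i1, i2, i3, α ∘ₗ m, β, fun x => ?_⟩
        change β (α (c • x)) = c • fn γ x
        rw [hab, ← algebraMap_smul T c x, map_smul, algebraMap_smul]
    obtain ⟨F, i1, i2, i3, α, β, hab⟩ := key 1 (by rw [hI]; trivial)
    refine Module.Projective.of_split (α ∘ₗ LinearMap.inr T T X) (LinearMap.snd T T X ∘ₗ β) ?_
    apply LinearMap.ext
    intro x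
    change (β (α (0, x))).2 = x
    rw [hab, fn_one]
  obtain ⟨f, hf, hle⟩ := Submodule.exists_le_ker_of_lt_top I hI
  refine ⟨mkQ f, fun h => hf h, fun v => ?_⟩
  apply qd_ext
  intro a
  rw [ev_smul, ev_mkQ, Helper426GSC.ev_zero]
  exact hle (Submodule.subset_span ⟨a, v, rfl⟩)

variable (lam : T →ₗ[K] K) (hlam : ∀ r, (∀ r', lam (r' * r) = 0) → r = 0)
variable (s : QD K (AE T X)) (hs0 : s ≠ 0) (hs : ∀ v : T × X, (mkA (elt v) : AE T X) • s = 0)
variable (τ : T) (x : X) (hx : x ≠ 0) (h1 : ∀ y : X, τ • y = 0) (h2 : ∀ t : T, t * τ = 0 → t • x = 0)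

include hlam hs in
theorem fst_zero (a : AA K T X) (x : X) : (fn a (0, pe s x)).1 = 0 := by
  have h3 : ∀ x : X, lm (AE T X) lam (fn a ((0 : RR K T X), pe s x)).1 = 0 := by
    intro x
    apply AE_ext
    intro v
    rw [← FF_elt, fn_zero]
    have h4 : (tp K (mkA (elt v) : AE T X) (1 : T)) • ((0 : RR K T X), pe s x) = 0 := by
      refine Prod.ext ?_ ?_
      · exact mul_zero _
      · change (tp K (mkA (elt v) : AE T X) (1 : T)) • pe s x = 0
        rw [← pe_smulG, hs]
        apply CN.ext
        intro γ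
        rw [pe_ev, Helper426GSC.ev_zero, zero_smul, CN.zero_ev]
    rw [h4, FF, map_zero]
    change fn (lm (AE T X) lam 0) (1, 0) = 0
    rw [map_zero, fn_zero]
  apply lm_inj lam hlam
  intro t
  have h4 : (tp K (1 : AE T X) t) • ((0 : RR K T X), pe s x) = (0, pe s (t • x)) := by
    refine Prod.ext ?_ ?_
    · exact mul_zero _
    · change (tp K (1 : AE T X) t) • pe s x = pe s (t • x)
      rw [pe_smulT]
  rw [← smul_eq_mul, ← Prod.smul_fst, ← map_smul, h4, h3]

theorem tp_pe (g : AE T X) (t : T) (ξ : QD K (AE T X)) (x : X) :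
    tp K g t • pe ξ x = pe (g • ξ) (t • x) := by
  have h1 : tp K g t = tp K g (1 : T) * tp K (1 : AE T X) t := by rw [tp_mul, mul_one, one_mul]
  rw [h1, mul_smul, ← pe_smulT, ← pe_smulG]

include h2 in
theorem ann_le (ρ : RR K T X) (h : ρ * tp K (1 : AE T X) τ = 0) : ρ • pe s x = 0 := by
  have hfd : FiniteDimensional K (AE T X) := finite_AE
  let b := Module.finBasis K (AE T X)
  have hb := bijT (T := T) b
  obtain ⟨c, rfl⟩ := hb.2 ρ
  have h3 : (fun j => c j * τ) = 0 := by
    apply hb.1
    change ∑ j, iT K (AE T X) T (c j * τ) * tp K (b j) (1 : T) =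
      ∑ j, iT K (AE T X) T 0 * tp K (b j) (1 : T)
    have e1 : ∑ j, iT K (AE T X) T (c j * τ) * tp K (b j) (1 : T) = 0 := by
      rw [← h]
      change _ = (∑ j, iT K (AE T X) T (c j) * tp K (b j) (1 : T)) * tp K (1 : AE T X) τ
      rw [Finset.sum_mul]
      refine Finset.sum_congr rfl fun j _ => ?_
      rw [iT_apply, iT_apply, tp_mul, tp_mul, tp_mul, one_mul, mul_one, mul_one, mul_one]
    rw [e1]
    refine (Finset.sum_eq_zero fun j _ => ?_).symm
    rw [map_zero, zero_mul]
  change (∑ j, iT K (AE T X) T (c j) * tp K (b j) (1 : T)) • pe s x = 0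
  rw [Finset.sum_smul]
  refine Finset.sum_eq_zero fun j _ => ?_
  rw [iT_apply, tp_mul, one_mul, mul_one, tp_pe, h2 (c j) (congrFun h3 j)]
  apply CN.ext
  intro γ
  rw [pe_ev, smul_zero, CN.zero_ev]

include hlam hs0 hs hx h1 h2 in
/-- the algebra does not embed into a projective-injective module -/
theorem no_emb (I : Type) [AddCommGroup I] [Module (AA K T X) I]
    (hP : Module.Projective (AA K T X) I) (hI : Module.Injective (AA K T X) I)
    (ε : AA K T X →ₗ[AA K T X] I) : ¬ Function.Injective ε := by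
  intro hε
  let b : AA K T X := tau (tp K (1 : AE T X) τ)
  let E : AA K T X := mkA (elt ((0 : RR K T X), pe s x))
  have hfb : ∀ w, fn b w = (w.1 * tp K (1 : AE T X) τ, 0) := by
    intro w
    refine Prod.ext rfl ?_
    change w.1 • (0 : NN K T X) = 0
    rw [smul_zero]
  have hfE : ∀ w, fn E w = (0, w.1 • pe s x) := by
    intro w
    refine Prod.ext ?_ rfl
    change w.1 * (0 : RR K T X) = 0
    rw [mul_zero]
  have hab : ∀ a : AA K T X, a * b = 0 → a * E = 0 := by
    intro a ha
    apply AE_ext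
    intro w
    have h3 : fn (a * b) w = 0 := by rw [ha, fn_zero]
    rw [fn_mul, hfb] at h3
    rw [fn_mul, hfE, fn_zero, ann_le s τ x h2 _ (congrArg Prod.fst h3)]
    rfl
  obtain ⟨y, hy⟩ : ∃ y : I, b • y = ε E := by
    let ρ : AA K T X →ₗ[AA K T X] AA K T X := LinearMap.toSpanSingleton _ _ b
    let g : AA K T X →ₗ[AA K T X] I := ε ∘ₗ LinearMap.toSpanSingleton _ _ E
    have hle : LinearMap.ker ρ ≤ LinearMap.ker g := by
      intro a ha
      have h3 : a * b = 0 := ha
      change ε (a * E) = 0
      rw [hab a h3, map_zero]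
    let f' : (AA K T X ⧸ LinearMap.ker ρ) →ₗ[AA K T X] AA K T X :=
      (LinearMap.ker ρ).liftQ ρ le_rfl
    let g' : (AA K T X ⧸ LinearMap.ker ρ) →ₗ[AA K T X] I := (LinearMap.ker ρ).liftQ g hle
    have hf' : Function.Injective f' := by
      rw [← LinearMap.ker_eq_bot]
      exact Submodule.ker_liftQ_eq_bot _ _ _ le_rfl
    obtain ⟨h, hh⟩ := hI.out f' hf' g'
    refine ⟨h 1, ?_⟩
    have h3 := hh (Submodule.Quotient.mk 1)
    have h4 : f' (Submodule.Quotient.mk 1) = b := by
      change (1 : AA K T X) * b = b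
      rw [one_mul]
    have h5 : g' (Submodule.Quotient.mk 1) = ε E := by
      change ε ((1 : AA K T X) * E) = ε E
      rw [one_mul]
    rw [h4, h5] at h3
    rw [← map_smul, smul_eq_mul, mul_one, h3]
  have key : ∀ c : I →ₗ[AA K T X] AA K T X, c (ε E) = 0 := by
    intro c
    have h3 : c (ε E) = E * c (ε 1) := by
      rw [← smul_eq_mul, ← map_smul, ← map_smul, smul_eq_mul, mul_one]
    have h4 : c (ε E) = b * c y := by
      rw [← smul_eq_mul, ← map_smul, hy]
    have h5 : fn (E * c (ε 1)) (1, 0) = fn (c (ε 1)) (0, pe s x) := by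
      rw [fn_mul, hfE, one_smul]
    have h6 : fn (b * c y) (1, 0) = tp K (1 : AE T X) τ • fn (c y) (1, 0) := by
      rw [fn_mul, hfb, ← map_smul]
      congr 1
      refine Prod.ext ?_ ?_
      · change 1 * tp K (1 : AE T X) τ = tp K (1 : AE T X) τ * 1
        rw [one_mul, mul_one]
      · change (0 : NN K T X) = tp K (1 : AE T X) τ • (0 : NN K T X)
        rw [smul_zero]
    have h7 : ∀ n : NN K T X, tp K (1 : AE T X) τ • n = 0 := by
      intro n
      apply CN.ext
      intro γ
      rw [CN.rsmul, one_smul, CN.tsmul_ev, h1, CN.zero_ev]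
    have h8 : fn (c (ε 1)) (0, pe s x) = 0 := by
      refine Prod.ext (fst_zero lam hlam s hs _ x) ?_
      rw [← h5, ← h3, h4, h6]
      exact h7 _
    rw [h3]
    apply AE_ext
    intro w
    have h9 : ((0 : RR K T X), w.1 • pe s x) = w.1 • ((0 : RR K T X), pe s x) := by
      refine Prod.ext ?_ rfl
      change (0 : RR K T X) = w.1 * 0
      rw [mul_zero]
    rw [fn_mul, hfE, h9, map_smul, h8, smul_zero, fn_zero]
  obtain ⟨σ, hσ⟩ := hP.out
  have h3 : σ (ε E) = 0 := by
    apply Finsupp.ext
    intro i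
    exact key (Finsupp.lapply i ∘ₗ σ)
  have h4 : ε E = 0 := by
    rw [← hσ (ε E), h3, map_zero]
  have h5 : E = 0 := hε (h4.trans (map_zero ε).symm)
  have h6 : fn E (1, 0) = (0, pe s x) := by rw [hfE, one_smul]
  rw [h5, fn_zero] at h6
  have h7 : pe s x = 0 := (congrArg Prod.snd h6).symm
  apply hs0
  apply qd_ext
  intro γ
  rw [Helper426GSC.ev_zero]
  by_contra hne
  apply hx
  have h8 : Helper426GSC.ev s γ • x = 0 := by
    rw [← pe_ev, h7, CN.zero_ev]
  exact (smul_eq_zero.mp h8).resolve_left hne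

end Main

end Pool.Agent.Run7.h229.Nak
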