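import Pool.Agent.Run7.h229.Nak.Dom

set_option autoImplicit false
set_option linter.unusedSectionVars false
set_option linter.unusedVariables false
open scoped TensorProduct
open CategoryTheory MulOpposite

/-!
# The Nakayama conjecture does not imply the first Tachikawa conjecture for each algebra

From a symmetric algebra `T` with a nonprojective module `X` without self-extensions (and an
element `τ` killing `X` whose annihilator kills a nonzero element of `X`), the frozen statement
S01776.
-/

namespace Pool.Agent.Run7.h229.Nak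

open Pool.Agent.Helper426GSC Pool.Agent.Helper426Tach Pool.Agent.Helper426TauT
  Pool.Agent.H546R3.Yam _root_.Run7.h692 _root_.Run7.h692.Eq Pool.Agent.Run7.h102.Nak

attribute [local instance] CI.acg CI.mod GW.acg GW.mod

section Main

variable {K T : Type} [Field K] [Ring T] [Algebra K T] [FiniteDimensional K T]
variable {X : Type} [AddCommGroup X] [Module T X] [Module K X] [IsScalarTower K T X]
  [FiniteDimensional K X]

/-- the algebra with the two properties -/
theorem exists_alg (lam : T →ₗ[K] K) (hlam : ∀ r, (∀ r', lam (r' * r) = 0) → r = 0)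
    (hsym : ∀ s t, lam (s * t) = lam (t * s)) (hX : EV T X X) (hproj : ¬ Module.Projective T X)
    (τ : T) (x : X) (hx : x ≠ 0) (h1 : ∀ y : X, τ • y = 0)
    (h2 : ∀ t : T, t * τ = 0 → t • x = 0) :
    ∃ (A : Type) (_ : Ring A) (_ : Algebra K A) (_ : FiniteDimensional K A),
      EV A (QD K A) A ∧ ∀ (I : Type) [AddCommGroup I] [Module A I], Module.Projective A I →
        Module.Injective A I → ∀ ε : A →ₗ[A] I, ¬ Function.Injective ε := by
  have hfd : FiniteDimensional K (AE T X) := finite_AE
  obtain ⟨s, hs0, hs⟩ := exists_s (K := K) (T := T) (X := X) hproj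
  refine ⟨AA K T X, inferInstance, inferInstance, finite_AE, ev_AA lam hlam hsym hX, ?_⟩
  intro I _ _ hP hI ε
  exact no_emb lam hlam s hs0 hs τ x hx h1 h2 I hP hI ε

/-- the statement of S01776 -/
theorem W1776 (lam : T →ₗ[K] K) (hlam : ∀ r, (∀ r', lam (r' * r) = 0) → r = 0)
    (hsym : ∀ s t, lam (s * t) = lam (t * s)) (hX : EV T X X) (hproj : ¬ Module.Projective T X)
    (τ : T) (x : X) (hx : x ≠ 0) (h1 : ∀ y : X, τ • y = 0)
    (h2 : ∀ t : T, t * τ = 0 → t • x = 0) :
    ¬ (∀ (k : Type) [Field k] (A : Type) [Ring A] [Algebra k A] [FiniteDimensional k A]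
    [CategoryTheory.HasExt.{1} (ModuleCat.{0} A)],
    ((∃ (I : ℕ → ModuleCat.{0} A) (ε : A →ₗ[A] I 0) (d : ∀ n, I n →ₗ[A] I (n + 1)),
        Function.Injective ε ∧ LinearMap.range ε = LinearMap.ker (d 0) ∧
        (∀ n, LinearMap.range (d n) = LinearMap.ker (d (n + 1))) ∧
        ∀ n, Module.Projective A (I n) ∧ Module.Injective A (I n)) →
      Module.Injective A A) →
    ((∀ (M : ModuleCat.{0} A), Module.Injective A M → Module.Finite A M →
        ∀ i : ℕ, 1 ≤ i →
          Subsingleton (CategoryTheory.Abelian.Ext.{1} M (ModuleCat.of A A) i)) →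
      Module.Injective A A)) := by
  intro H
  obtain ⟨A, _, _, _, hE, hN⟩ := exists_alg lam hlam hsym hX hproj τ x hx h1 h2
  have : HasExt.{1} (ModuleCat.{0} A) := HasExt.standard _
  have hinj : Module.Injective A A := by
    refine H K A ?_ ?_
    · rintro ⟨I, ε, d, hε, _, _, hI⟩
      exact absurd hε (hN (I 0) (hI 0).1 (hI 0).2 ε)
    · intro M hM hf i hi
      obtain ⟨j, rfl⟩ : ∃ j, i = j + 1 := ⟨i - 1, by omega⟩
      have h3 : Subsingleton (Abelian.Ext.{0} (ModuleCat.of A M) (ModuleCat.of A A) (j + 1)) :=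
        ev_inj hE M hM j
      exact (Abelian.Ext.chgUniv.{0, 1} (X := ModuleCat.of A M)
        (Y := ModuleCat.of A A) (n := j + 1)).subsingleton
  exact hN A inferInstance hinj LinearMap.id Function.injective_id

end Main

end Pool.Agent.Run7.h229.Nak
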