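import Pool.Agent.Run7.h102.Nak.WB

set_option autoImplicit false
set_option linter.unusedSectionVars false
open scoped TensorProduct
open CategoryTheory MulOpposite

/-!
# Endomorphism algebras of generators over a finite-dimensional algebra

For a finite-dimensional algebra `R`, a module `N` and `A = (End_R (R × N))ᵒᵖ`: vanishing of
`Ext_A (M, Hom_R (R × N, U))` from vanishing over `R`.
-/

namespace Pool.Agent.Run7.h229.Nak

open Pool.Agent.Helper426GSC Pool.Agent.Helper426Tach Pool.Agent.Helper426TauT
  Pool.Agent.H546R3.Yam _root_.Run7.h692 _root_.Run7.h692.Eq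

attribute [local instance] GW.acg GW.mod

section Gen

variable {K R : Type} [Field K] [Ring R] [Algebra K R] [FiniteDimensional K R]
variable {N : Type} [AddCommGroup N] [Module R N] [Module K N] [IsScalarTower K R N]
  [FiniteDimensional K N]

/-- powers of the dual of `R` give injective modules -/
theorem GWQ_retract (k : ℕ) :
    ∃ (s : GW R N (Fin k → QD K R) →ₗ[AE R N] (Fin k → QD K (AE R N)))
      (r : (Fin k → QD K (AE R N)) →ₗ[AE R N] GW R N (Fin k → QD K R)), ∀ g, r (s g) = g := by
  let s : GW R N (Fin k → QD K R) →ₗ[AE R N] (Fin k → QD K (AE R N)) :=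
    { toFun := fun g i => mkQ
        { toFun := fun a => ev (g.ev (fn a (1, 0)) i) 1
          map_add' := fun a b => by rw [fn_add, map_add, Pi.add_apply, ev_add]
          map_smul' := fun c a => by
            change ev (g.ev (c • fn a (1, 0)) i) 1 = c • ev (g.ev (fn a (1, 0)) i) 1
            rw [← algebraMap_smul R c (fn a (1, 0)), map_smul, Pi.smul_apply, ev_smul,
              ← Algebra.commutes, ← Algebra.smul_def, ev_smul', smul_eq_mul] }
      map_add' := fun g h => by
        funext i
        apply qd_ext
        intro a
        change ev ((g + h).ev (fn a (1, 0)) i) 1 = ev (g.ev (fn a (1, 0)) i) 1 +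
          ev (h.ev (fn a (1, 0)) i) 1
        rw [GW.add_ev, Pi.add_apply, ev_add]
      map_smul' := fun b g => by
        funext i
        apply qd_ext
        intro a
        rfl }
  have hs : ∀ g i a, ev (s g i) a = ev (g.ev (fn a (1, 0)) i) 1 := fun _ _ _ => rfl
  let r : (Fin k → QD K (AE R N)) →ₗ[AE R N] GW R N (Fin k → QD K R) :=
    { toFun := fun φ => GW.mk
        { toFun := fun n i => mkQ
            { toFun := fun q => ev (φ i) (mkA (elt (q • n)))
              map_add' := fun q q' => by rw [add_smul, elt_add', ev_add']
              map_smul' := fun c q => by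
                have h1 : (mkA (elt ((c • q) • n)) : AE R N) = c • mkA (elt (q • n)) := by
                  apply AE_ext
                  intro m
                  change (elt ((c • q) • n) : (R × N) →ₗ[R] (R × N)) m = c • elt (q • n) m
                  rw [elt_apply, elt_apply, smul_assoc, smul_comm]
                rw [h1, ev_smul']
                rfl }
          map_add' := fun n m => by
            funext i
            apply qd_ext
            intro q
            change ev (φ i) (mkA (elt (q • (n + m)))) = ev (φ i) (mkA (elt (q • n))) +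
              ev (φ i) (mkA (elt (q • m)))
            rw [smul_add, elt_add', ev_add']
          map_smul' := fun t n => by
            funext i
            apply qd_ext
            intro q
            change ev (φ i) (mkA (elt (q • t • n))) = ev (φ i) (mkA (elt ((q * t) • n)))
            rw [mul_smul] }
      map_add' := fun φ ψ => GW.ext fun n => rfl
      map_smul' := fun a φ => GW.ext fun n => by
        funext i
        apply qd_ext
        intro q
        change ev (φ i) (mkA (elt (q • n)) * a) = ev (φ i) (mkA (elt (q • fn a n)))
        rw [elt_fn, map_smul] }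
  refine ⟨s, r, fun g => GW.ext fun n => ?_⟩
  funext i
  apply qd_ext
  intro q
  change ev (s g i) (mkA (elt (q • n))) = ev (g.ev n i) q
  rw [hs, fn_mkA, elt_one, map_smul, Pi.smul_apply, ev_smul, one_mul]

theorem inj_GWQ (k : ℕ) : Module.Injective (AE R N) (GW R N (Fin k → QD K R)) := by
  have hfd : FiniteDimensional K (AE R N) := finite_AE
  obtain ⟨s, r, hrs⟩ := GWQ_retract (K := K) (R := R) (N := N) k
  have hq : Module.Injective (AE R N) (QD K (AE R N)) := qd_injective
  have hpow : Module.Injective (AE R N) (Fin k → QD K (AE R N)) := inferInstance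
  exact inj_of_retract s r (LinearMap.ext hrs) hpow

variable {M : Type} [AddCommGroup M] [Module (AE R N) M]
variable {Z : Type} [AddCommGroup Z] [Module R Z] (j : Z →+ M)
  (hj : ∀ (r : R) (z : Z), j (r • z) = (mkA (elt (r, 0)) : AE R N) • j z)
  (hinj : Function.Injective j) (hsur : ∀ m : M, ∃ z, j z = eE R N • m)

include hj hinj hsur in
theorem gen_lift {W V : Type} [AddCommGroup W] [Module R W] [AddCommGroup V] [Module R V]
    (p : V →ₗ[R] W) (hp : ∀ F : Z →ₗ[R] W, ∃ G : Z →ₗ[R] V, ∀ z, p (G z) = F z)
    (F : M →ₗ[AE R N] GW R N W) :
    ∃ H : M →ₗ[AE R N] GW R N V, ∀ m, GW.map N p (H m) = F m := by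
  have hsur2 : ∀ (n : R × N) (m : M), ∃ z, j z = (mkA (elt n) : AE R N) • m := by
    intro n m
    obtain ⟨z, hz⟩ := hsur ((mkA (elt n) : AE R N) • m)
    refine ⟨z, ?_⟩
    rw [hz, ← mul_smul, eA_elt]
  choose q hq using hsur2
  let Fe : Z →ₗ[R] W :=
    { toFun := fun z => (F (j z)).ev (1, 0)
      map_add' := fun z w => by rw [map_add, map_add, GW.add_ev]
      map_smul' := fun t z => by
        rw [hj, map_smul, GW.smul_ev, fn_mkA, elt_one, RingHom.id_apply, ← map_smul]
        congr 1
        rw [Prod.smul_mk, smul_eq_mul, mul_one, smul_zero] }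
  obtain ⟨He, hHe⟩ := hp Fe
  let H : M →ₗ[AE R N] GW R N V :=
    { toFun := fun m => GW.mk
        { toFun := fun n => He (q n m)
          map_add' := fun n n' => by
            rw [← map_add]
            congr 1
            apply hinj
            rw [map_add, hq, hq, hq, elt_add', add_smul]
          map_smul' := fun t n => by
            rw [RingHom.id_apply, ← map_smul]
            congr 1
            apply hinj
            rw [hj, hq, hq, ← mul_smul, elt_tau] }
      map_add' := fun m m' => GW.ext fun n => by
        change He (q n (m + m')) = He (q n m) + He (q n m')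
        rw [← map_add]
        congr 1
        apply hinj
        rw [map_add, hq, hq, hq, smul_add]
      map_smul' := fun a m => GW.ext fun n => by
        change He (q n (a • m)) = He (q (fn a n) m)
        congr 1
        apply hinj
        rw [hq, hq, ← mul_smul, elt_fn] }
  refine ⟨H, fun m => GW.ext fun n => ?_⟩
  change p (He (q n m)) = (F m).ev n
  rw [hHe]
  change (F (j (q n m))).ev (1, 0) = _
  rw [hq, map_smul, GW.smul_ev, fn_mkA, elt_one]

variable (K) in
include K hj hinj hsur in
/-- transfer of vanishing of Ext -/
theorem ev_gen (n : ℕ) : ∀ (U : Type) [AddCommGroup U] [Module R U] [Module.Finite R U],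
    EV R (R × N) U → EV R Z U → EX (AE R N) n M (GW R N U) := by
  induction n with
  | zero =>
    intro W _ _ _ hW hV
    obtain ⟨k, f, hf⟩ := qd_embedding (k := K) (A := R) W
    have hs := SES.ofCoker hf
    exact (GW.ses hs (hW 0)).cov0 (EX.inj (inj_GWQ (K := K) k))
      (gen_lift j hj hinj hsur _ (fun F => hs.lift (hV 0) F))
  | succ n ih =>
    intro W _ _ _ hW hV
    obtain ⟨k, f, hf⟩ := qd_embedding (k := K) (A := R) W
    have hs := SES.ofCoker hf
    have hq : Module.Injective R (QD K R) := qd_injective
    have hfq : Module.Finite R (QD K R) := qd_finite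
    have hfi : Module.Injective R (Fin k → QD K R) := inferInstance
    exact (GW.ses hs (hW 0)).covS (EX.inj (inj_GWQ (K := K) k))
      (ih _ (fun m => hs.covC (EX.inj hfi) (hW (m + 1)))
        (fun m => hs.covC (EX.inj hfi) (hV (m + 1))))

variable (K) in
include K hj hinj hsur in
theorem ev_reg [Module.Finite R N] (hW : EV R (R × N) (R × N)) (hZ : EV R Z (R × N)) :
    EV (AE R N) M (AE R N) := fun n =>
  (ev_gen K j hj hinj hsur n (R × N) hW hZ).retrR (regG R N) (regG' R N) fun y => rfl

end Gen

end Pool.Agent.Run7.h229.Nak
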