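import Pool.Agent.Run7.h229.Nak.Fin

set_option autoImplicit false
set_option linter.unusedSectionVars false
set_option linter.unusedVariables false
open scoped TensorProduct
open CategoryTheory MulOpposite

/-!
# Removing projective summands
-/

namespace Pool.Agent.Run7.h229.Nak

open Pool.Agent.Helper426GSC Pool.Agent.Helper426Tach Pool.Agent.Helper426TauT
  Pool.Agent.H546R3.Yam _root_.Run7.h692 _root_.Run7.h692.Eq Pool.Agent.Run7.h102.Nak

section Good

variable {K T : Type} [Field K] [Ring T] [Algebra K T] [FiniteDimensional K T]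
variable (lam : T →ₗ[K] K) (hlam : ∀ r, (∀ r', lam (r' * r) = 0) → r = 0)

include hlam in
/-- a module without projective summands is killed by a suitable element -/
theorem good_or (X : Type) [AddCommGroup X] [Module T X] [Module K X] [IsScalarTower K T X]
    [FiniteDimensional K X] (hX : ∃ x : X, x ≠ 0) :
    (∃ (τ : T) (x : X), x ≠ 0 ∧ (∀ y : X, τ • y = 0) ∧ ∀ t : T, t * τ = 0 → t • x = 0) ∨
    ∃ (φ : T →ₗ[T] X) (ψ : X →ₗ[T] T) (z : X), z ≠ 0 ∧ φ (ψ z) = z := by
  have hart : IsArtinian T X := isArtinian_of_tower K inferInstance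
  obtain ⟨x0, hx0⟩ := hX
  have hne : (⊤ : Submodule T X) ≠ ⊥ := by
    intro h
    apply hx0
    have h1 : x0 ∈ (⊤ : Submodule T X) := trivial
    rw [h] at h1
    exact (Submodule.mem_bot T).mp h1
  obtain ⟨S, hS, -⟩ := (IsAtomic.eq_bot_or_exists_atom_le (⊤ : Submodule T X)).resolve_left hne
  obtain ⟨x, hxS, hx⟩ := (Submodule.ne_bot_iff S).mp hS.1
  have hgen : ∀ t : T, t • x ≠ 0 → ∃ y : T, y • t • x = x := by
    intro t ht
    have h1 : Submodule.span T {t • x} = S := by
      by_contra hc
      have h2 : Submodule.span T {t • x} ≤ S :=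
        Submodule.span_le.mpr (Set.singleton_subset_iff.mpr (S.smul_mem t hxS))
      have h3 := hS.2 _ (lt_of_le_of_ne h2 hc)
      exact ht (Submodule.span_singleton_eq_bot.mp h3)
    rw [← h1] at hxS
    exact Submodule.mem_span_singleton.mp hxS
  obtain ⟨θ, hθ⟩ : ∃ θ : X →ₗ[K] K, θ x ≠ 0 := by
    by_contra hc
    push Not at hc
    exact hx ((Module.forall_dual_apply_eq_zero_iff K x).mp hc)
  let f : T →ₗ[K] K :=
    { toFun := fun t => θ (t • x)
      map_add' := fun a b => by rw [add_smul, map_add]
      map_smul' := fun c a => by rw [smul_assoc, map_smul, RingHom.id_apply] }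
  obtain ⟨τ, hτ⟩ := (pairing_bij lam hlam).2 f
  have hτ' : ∀ t, lam (t * τ) = θ (t • x) := fun t => LinearMap.congr_fun hτ t
  have h1 : ∀ t : T, t * τ = 0 → t • x = 0 := by
    intro t ht
    by_contra hc
    obtain ⟨y, hy⟩ := hgen t hc
    apply hθ
    rw [← hy, ← mul_smul, ← hτ', mul_assoc, ht, mul_zero, map_zero]
  have h2 : ∀ t : T, t * τ ≠ 0 → ∃ y : T, y * (t * τ) = τ := by
    intro t ht
    have h3 : t • x ≠ 0 := by
      intro hc
      apply ht
      apply hlam
      intro y
      rw [← mul_assoc, hτ', mul_smul, hc, smul_zero, map_zero]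
    obtain ⟨y, hy⟩ := hgen t h3
    refine ⟨y, ?_⟩
    rw [← sub_eq_zero]
    apply hlam
    intro u
    rw [mul_sub, map_sub, sub_eq_zero, hτ', ← mul_assoc, ← mul_assoc, hτ', mul_assoc, mul_smul,
      mul_smul, hy]
  by_cases h3 : ∀ y : X, τ • y = 0
  · exact Or.inl ⟨τ, x, hx, h3, h1⟩
  right
  push Not at h3
  obtain ⟨y, hy⟩ := h3
  have hinj : Module.Injective T T := frob_injective lam hlam
  let ρ : T →ₗ[T] X := LinearMap.toSpanSingleton T X (τ • y)
  let g : T →ₗ[T] T := LinearMap.toSpanSingleton T T τ
  have hle : LinearMap.ker ρ ≤ LinearMap.ker g := by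
    intro t ht
    have h4 : t • τ • y = 0 := ht
    change t * τ = 0
    by_contra hc
    obtain ⟨z, hz⟩ := h2 t hc
    apply hy
    rw [← hz, mul_smul, mul_smul, h4, smul_zero]
  let f' : (T ⧸ LinearMap.ker ρ) →ₗ[T] X := (LinearMap.ker ρ).liftQ ρ le_rfl
  let g' : (T ⧸ LinearMap.ker ρ) →ₗ[T] T := (LinearMap.ker ρ).liftQ g hle
  have hf' : Function.Injective f' := by
    rw [← LinearMap.ker_eq_bot]
    exact Submodule.ker_liftQ_eq_bot _ _ _ le_rfl
  obtain ⟨ψ, hψ⟩ := hinj.out f' hf' g'
  have h4 := hψ (Submodule.Quotient.mk 1)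
  have h5 : f' (Submodule.Quotient.mk 1) = τ • y := one_smul T (τ • y)
  have h6 : g' (Submodule.Quotient.mk 1) = τ := one_mul τ
  rw [h5, h6] at h4
  refine ⟨LinearMap.toSpanSingleton T X y, ψ, τ • y, hy, ?_⟩
  rw [h4]
  rfl

include hlam in
/-- passing to a summand without projective summands -/
theorem exists_good (n : ℕ) : ∀ (X : Type) [AddCommGroup X] [Module T X] [Module K X]
    [IsScalarTower K T X] [FiniteDimensional K X], Module.finrank K X = n → EV T X X →
    ¬ Module.Projective T X →
    ∃ (Y : Type) (_ : AddCommGroup Y) (_ : Module T Y) (_ : Module K Y) (_ : IsScalarTower K T Y)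
      (_ : FiniteDimensional K Y), EV T Y Y ∧ ¬ Module.Projective T Y ∧
      ∃ (τ : T) (x : Y), x ≠ 0 ∧ (∀ y : Y, τ • y = 0) ∧ ∀ t : T, t * τ = 0 → t • x = 0 := by
  induction n using Nat.strong_induction_on with
  | _ n ih =>
    intro X _ _ _ _ _ hn hE hP
    have hX : ∃ x : X, x ≠ 0 := by
      by_contra hc
      push Not at hc
      apply hP
      have : Subsingleton X := ⟨fun a b => by rw [hc a, hc b]⟩
      infer_instance
    rcases good_or lam hlam X hX with h | h
    · exact ⟨X, inferInstance, inferInstance, inferInstance, inferInstance, inferInstance, hE, hP, h⟩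
    · obtain ⟨φ, ψ, z, hz, hφψ⟩ := h
      have hart : IsArtinian T X := isArtinian_of_tower K inferInstance
      have hnoe : IsNoetherian T X := isNoetherian_of_tower K inferInstance
      let σ : Module.End T X := φ ∘ₗ ψ
      have hσz : ∀ m : ℕ, (σ ^ m) z = z := by
        intro m
        induction m with
        | zero => rfl
        | succ m ihm =>
          rw [pow_succ, Module.End.mul_apply]
          have : σ z = z := hφψ
          rw [this, ihm]
      obtain ⟨m, hm1, hm⟩ := ((Filter.eventually_ge_atTop 1).and
        (LinearMap.eventually_isCompl_ker_pow_range_pow σ)).exists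
      let P := LinearMap.range (σ ^ m)
      let N := LinearMap.ker (σ ^ m)
      have hzP : z ∈ P := ⟨z, hσz m⟩
      have hσP : ∀ p ∈ P, σ p ∈ P := by
        rintro _ ⟨q, rfl⟩
        refine ⟨σ q, ?_⟩
        rw [← Module.End.mul_apply, ← Module.End.mul_apply, ← pow_succ, ← pow_succ']
      let s : P →ₗ[T] P := σ.restrict hσP
      have hsinj : Function.Injective s := by
        rw [injective_iff_map_eq_zero]
        intro p hp
        have h1 : σ p.1 = 0 := congrArg Subtype.val hp
        have h2 : p.1 ∈ N := by
          change (σ ^ m) p.1 = 0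
          obtain ⟨k, rfl⟩ : ∃ k, m = k + 1 := ⟨m - 1, by omega⟩
          rw [pow_succ, Module.End.mul_apply, h1, map_zero]
        exact Subtype.ext (Submodule.disjoint_def.mp hm.disjoint _ h2 p.2)
      have hssurj : Function.Surjective s := IsArtinian.surjective_of_injective_endomorphism s hsinj
      let e := LinearEquiv.ofBijective s ⟨hsinj, hssurj⟩
      let π : X →ₗ[T] P := Submodule.projectionOnto P N hm.symm
      have hπ : ∀ p : P, π p.1 = p := fun p => Submodule.projectionOnto_apply_left hm.symm p
      have hPp : Module.Projective T P := by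
        refine Module.Projective.of_split (ψ ∘ₗ P.subtype) (e.symm.toLinearMap ∘ₗ π ∘ₗ φ) ?_
        apply LinearMap.ext
        intro p
        change e.symm (π (φ (ψ p.1))) = p
        have h1 : φ (ψ p.1) = (s p).1 := rfl
        rw [h1, hπ]
        exact e.symm_apply_apply p
      let E := Submodule.prodEquivOfIsCompl N P hm
      have hNp : ¬ Module.Projective T N := by
        intro h
        apply hP
        exact Module.Projective.of_equiv E
      let π' : X →ₗ[T] N := Submodule.projectionOnto N P hm
      have hπ' : ∀ p : N, π' p.1 = p := fun p => Submodule.projectionOnto_apply_left hm p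
      have hEN : EV T N N := fun i =>
        ((hE i).retrL N.subtype π' hπ').retrR N.subtype π' hπ'
      have hfN : FiniteDimensional K N :=
        Module.Finite.of_injective (N.subtype.restrictScalars K) N.subtype_injective
      have hlt : Module.finrank K N < n := by
        rw [← hn]
        have h1 : N.restrictScalars K < ⊤ := by
          rw [lt_top_iff_ne_top]
          intro h
          have h2 : z ∈ N.restrictScalars K := by rw [h]; trivial
          exact hz (Submodule.disjoint_def.mp hm.disjoint _ h2 hzP)
        exact Submodule.finrank_lt h1.ne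
      exact ih _ hlt N rfl hEN hNp

end Good

section Final

variable {K T : Type} [Field K] [Ring T] [Algebra K T] [FiniteDimensional K T]
variable {X : Type} [AddCommGroup X] [Module T X] [Module.Finite T X]

/-- the statement of S01776, from a symmetric algebra with a nonprojective module without
self-extensions -/
theorem W1776' (lam : T →ₗ[K] K) (hlam : ∀ r, (∀ r', lam (r' * r) = 0) → r = 0)
    (hsym : ∀ s t, lam (s * t) = lam (t * s)) (hX : EV T X X) (hproj : ¬ Module.Projective T X) :
    ¬ (∀ (k : Type) [Field k] (A : Type) [Ring A] [Algebra k A] [FiniteDimensional k A]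
    [CategoryTheory.HasExt.{1} (ModuleCat.{0} A)],
    ((∃ (I : ℕ → ModuleCat.{0} A) (ε : A →ₗ[A] I 0) (d : ∀ n, I n →ₗ[A] I (n + 1)),
        Function.Injective ε ∧ LinearMap.range ε = LinearMap.ker (d 0) ∧
        (∀ n, LinearMap.range (d n) = LinearMap.ker (d (n + 1))) ∧
        ∀ n, Module.Projective A (I n) ∧ Module.Injective A (I n)) →
      Module.Injective A A) →
    ((∀ (M : ModuleCat.{0} A), Module.Injective A M → Module.Finite A M →
        ∀ i : ℕ, 1 ≤ i →
          Subsingleton (CategoryTheory.Abelian.Ext.{1} M (ModuleCat.of A A) i)) →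
      Module.Injective A A)) := by
  let _ : Module K X := Module.compHom X (algebraMap K T)
  have hst : IsScalarTower K T X := tower_compHom K T X
  have hfd : Module.Finite K X := Module.Finite.trans T X
  obtain ⟨Y, _, _, _, _, _, hE, hP, τ, x, hx, h1, h2⟩ := exists_good lam hlam _ X rfl hX hproj
  exact W1776 lam hlam hsym hE hP τ x hx h1 h2

end Final

end Pool.Agent.Run7.h229.Nak
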