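import Pool.Agent.Run7.h433.Nak.Iface

set_option autoImplicit false
set_option linter.unusedVariables false

/-!
# The algebra `T` is symmetric
-/

namespace Run7.h229.Nak

open Run7.h433.Nak

theorem wordR_lt (s : ℕ) : ∀ n ∈ wordR s, n < 7 := by
  intro n hn
  unfold wordR at hn
  simp only [List.mem_append] at hn
  rcases hn with (((((h | h) | h) | h) | h) | h) | h <;>
    · split_ifs at h <;> simp at h <;> omega

theorem lw_rw (hL : Lws) (r s : I) : LW r * RW s = RW s * LW r := by
  unfold RW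
  have key : ∀ w : List ℕ, (∀ n ∈ w, n < 7) → LW r * (w.map mt).prod = (w.map mt).prod * LW r := by
    intro w
    induction w with
    | nil => intro _; rw [List.map_nil, List.prod_nil, mul_one, one_mul]
    | cons n w ih =>
      intro h
      have h1 := hL.comm r ⟨n, h n (by simp)⟩
      have h1' : LW r * mt n = mt n * LW r := h1
      rw [List.map_cons, List.prod_cons, ← mul_assoc, h1', mul_assoc, mul_assoc,
        ih (fun m hm => h m (by simp [hm]))]
  exact key _ (wordR_lt s)

/-- the entries of the right multiplications are those of the left multiplications -/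
theorem rw_apply (hL : Lws) (s p q : I) : RW s p q = LW q p s := by
  have h := congrFun (congrFun (lw_rw hL q s) p) 0
  rw [Matrix.mul_apply, Matrix.mul_apply] at h
  have e1 : ∑ j, LW q p j * RW s j 0 = LW q p s := by
    rw [Finset.sum_eq_single s]
    · rw [hL.r0, if_pos rfl, mul_one]
    · intro j _ hj
      rw [hL.r0, if_neg hj, mul_zero]
    · intro h; exact absurd (Finset.mem_univ s) h
  have e2 : ∑ j, RW s p j * LW q j 0 = RW s p q := by
    rw [Finset.sum_eq_single q]
    · rw [hL.l0, if_pos rfl, mul_one]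
    · intro j _ hj
      rw [hL.l0, if_neg hj, mul_zero]
    · intro h; exact absurd (Finset.mem_univ q) h
  rw [e1, e2] at h
  exact h.symm

theorem isT_RW (s : I) : IsT (oM (RW s) : W ℚ →ₗ[ℚ] W ℚ) := by
  unfold RW
  have key : ∀ w : List ℕ, (∀ n ∈ w, n < 7) → IsT (oM (w.map mt).prod : W ℚ →ₗ[ℚ] W ℚ) := by
    intro w
    induction w with
    | nil =>
      intro _ t x
      rw [List.map_nil, List.prod_nil, oM_one, oM_one]
    | cons n w ih =>
      intro h t x
      rw [List.map_cons, List.prod_cons, oM_mul, oM_mul, ih (fun m hm => h m (by simp [hm]))]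
      exact isT_rm (V := ℚ) ⟨n, h n (by simp)⟩ t _
  exact key _ (wordR_lt s)

theorem smul_sg (t : T) (σ : Vt) (s : I) (τ : Vt) (p : I) :
    (t • (sg σ s 1 : W ℚ)) τ p = t.mat (τ, p) (σ, s) := by
  rw [smul_def, act_apply, Finset.sum_eq_single (σ, s)]
  · change t.mat (τ, p) (σ, s) • (if σ = σ ∧ s = s then (1 : ℚ) else 0) = _
    rw [if_pos ⟨rfl, rfl⟩, smul_eq_mul, mul_one]
  · intro q _ hq
    change t.mat (τ, p) q • (if q.1 = σ ∧ q.2 = s then (1 : ℚ) else 0) = _
    rw [if_neg (fun h => hq (Prod.ext h.1 h.2)), smul_zero]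
  · intro h; exact absurd (Finset.mem_univ _) h

/-- the entries of an element of `T` are determined by the first columns -/
theorem mat_eq (hL : Lws) (t : T) (τ σ : Vt) (p s : I) :
    t.mat (τ, p) (σ, s) = ∑ q : I, t.mat (τ, q) (σ, 0) * LW q p s := by
  have h1 : (sg σ s 1 : W ℚ) = oM (RW s) (sg σ 0 1) := by
    funext τ' r
    rw [oM_apply, Finset.sum_eq_single 0]
    · change (if τ' = σ ∧ r = s then (1 : ℚ) else 0) =
        RW s r 0 • (if τ' = σ ∧ (0 : I) = 0 then (1 : ℚ) else 0)
      rw [hL.r0]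
      by_cases h : τ' = σ
      · by_cases h' : r = s
        · simp [h, h']
        · simp [h, h']
      · simp [h]
    · intro q _ hq
      change RW s r q • (if τ' = σ ∧ q = 0 then (1 : ℚ) else 0) = 0
      rw [if_neg (fun h => hq h.2), smul_zero]
    · intro h; exact absurd (Finset.mem_univ _) h
  rw [← smul_sg, h1, ← isT_RW s t, oM_apply]
  refine Finset.sum_congr rfl fun q _ => ?_
  rw [smul_sg, rw_apply hL, smul_eq_mul, mul_comm]

/-- the sign -/
def sn (τ : Vt) : ℚ := if (τ : ℕ) < 6 then 1 else -1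

theorem vG_even (τ σ : Vt) : (vG τ - vG σ) % 2 = 0 ↔ ((τ : ℕ) < 6 ↔ (σ : ℕ) < 6) := by
  unfold vG
  have h1 := τ.2
  have h2 := σ.2
  omega

theorem sn_eq (τ σ : Vt) (p : I) (h : sG τ p = sG σ 0) :
    sn τ * (if (nG p) % 2 = 0 then 1 else -1) = sn σ := by
  have h0 : nG 0 = 0 := by decide
  have h1 : nG p = vG τ - vG σ := by
    unfold sG at h
    have h2 : nG ((0 : I) : ℕ) = 0 := h0
    rw [h2] at h
    omega
  rw [h1]
  unfold sn
  by_cases h2 : (τ : ℕ) < 6
  · by_cases h3 : (σ : ℕ) < 6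
    · rw [if_pos ((vG_even τ σ).2 ⟨fun _ => h3, fun _ => h2⟩), if_pos h2, if_pos h3, one_mul]
    · rw [if_neg (fun h4 => h3 (((vG_even τ σ).1 h4).1 h2)), if_pos h2, if_neg h3, one_mul]
  · by_cases h3 : (σ : ℕ) < 6
    · rw [if_neg (fun h4 => h2 (((vG_even τ σ).1 h4).2 h3)), if_neg h2, if_pos h3]
      norm_num
    · rw [if_pos ((vG_even τ σ).2 ⟨fun h4 => absurd h4 h2, fun h4 => absurd h4 h3⟩), if_neg h2,
        if_neg h3]
      norm_num

/-- the form -/
def lamT : T →ₗ[ℚ] ℚ where
  toFun t := ∑ τ : Vt, sn τ * t.mat (τ, 127) (τ, 0)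
  map_add' s t := by
    rw [← Finset.sum_add_distrib]
    refine Finset.sum_congr rfl fun τ _ => ?_
    rw [T.mat_add, Matrix.add_apply, mul_add]
  map_smul' c t := by
    rw [RingHom.id_apply, smul_eq_mul, Finset.mul_sum]
    refine Finset.sum_congr rfl fun τ _ => ?_
    rw [T.mat_smul, Matrix.smul_apply, smul_eq_mul, mul_left_comm]

theorem lamT_mul (s t : T) : lamT (s * t) =
    ∑ τ : Vt, ∑ σ : Vt, ∑ r : I, sn τ * (s.mat (τ, 127) (σ, r) * t.mat (σ, r) (τ, 0)) := by
  change ∑ τ : Vt, sn τ * (s * t).mat (τ, 127) (τ, 0) = _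
  refine Finset.sum_congr rfl fun τ _ => ?_
  rw [T.mat_mul, Matrix.mul_apply, Finset.mul_sum, Fintype.sum_prod_type]

/-- the form on products, in terms of the first columns -/
theorem lamT_mul' (hL : Lws) (s t : T) : lamT (s * t) = ∑ τ : Vt, ∑ σ : Vt, ∑ r : I, ∑ p : I,
    sn τ * (s.mat (τ, p) (σ, 0) * LW p 127 r * t.mat (σ, r) (τ, 0)) := by
  rw [lamT_mul]
  refine Finset.sum_congr rfl fun τ _ => Finset.sum_congr rfl fun σ _ =>
    Finset.sum_congr rfl fun r _ => ?_
  rw [mat_eq hL s, Finset.sum_mul, Finset.mul_sum]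

theorem lamT_symm (hL : Lws) (s t : T) : lamT (s * t) = lamT (t * s) := by
  rw [lamT_mul' hL, lamT_mul' hL, Finset.sum_comm]
  refine Finset.sum_congr rfl fun σ _ => Finset.sum_congr rfl fun τ _ => ?_
  rw [Finset.sum_comm]
  refine Finset.sum_congr rfl fun p _ => Finset.sum_congr rfl fun r _ => ?_
  by_cases h : s.mat (τ, p) (σ, 0) = 0
  · rw [h]
    ring
  · have h1 := (s.src (τ, p) (σ, 0) h).2
    rw [hL.frob p r, ← sn_eq τ σ p h1]
    split_ifs <;> ring

theorem lamT_nondeg (hL : Lws) (hT : Tst) (r : T) (h : ∀ r' : T, lamT (r' * r) = 0) : r = 0 := by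
  apply hT.uniq
  intro σ
  rw [zero_smul]
  funext τ p
  rw [smul_sg]
  change r.mat (τ, p) (σ, 0) = 0
  have key : (fun q : I => r.mat (τ, q) (σ, 0)) = 0 := by
    apply hL.nondeg
    intro p
    by_cases hdeg : sI σ p = vI τ ∧ sG σ p = vG τ
    · obtain ⟨r', hr'⟩ := hT.exE σ τ p hdeg.1 hdeg.2
      have h1 := h r'
      rw [lamT_mul, Finset.sum_eq_single σ, Finset.sum_eq_single τ] at h1
      · have h2 : ∑ q : I, sn σ * (r'.mat (σ, 127) (τ, q) * r.mat (τ, q) (σ, 0)) =
            sn σ * ∑ q : I, LW p 127 q * r.mat (τ, q) (σ, 0) := by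
          rw [Finset.mul_sum]
          refine Finset.sum_congr rfl fun q _ => ?_
          rw [hr' (σ, 127) (τ, q), if_pos ⟨rfl, rfl⟩]
        rw [h2] at h1
        refine (mul_eq_zero.mp h1).resolve_left ?_
        unfold sn
        split_ifs <;> norm_num
      · intro ρ _ hρ
        refine Finset.sum_eq_zero fun q _ => ?_
        rw [hr' (σ, 127) (ρ, q), if_neg (fun h => hρ h.2), zero_mul, mul_zero]
      · intro h; exact absurd (Finset.mem_univ _) h
      · intro ρ _ hρ
        refine Finset.sum_eq_zero fun ρ' _ => Finset.sum_eq_zero fun q _ => ?_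
        rw [hr' (ρ, 127) (ρ', q), if_neg (fun h => hρ h.1), zero_mul, mul_zero]
      · intro h; exact absurd (Finset.mem_univ _) h
    · refine Finset.sum_eq_zero fun q _ => ?_
      by_cases h1 : LW p 127 q = 0
      · rw [h1, zero_mul]
      by_cases h2 : r.mat (τ, q) (σ, 0) = 0
      · rw [h2, mul_zero]
      exfalso
      apply hdeg
      obtain ⟨d1, d2⟩ := hL.deg p 127 q h1
      obtain ⟨e1, e2⟩ := r.src (τ, q) (σ, 0) h2
      have a1 : nI ((127 : I) : ℕ) = 0 := by decide
      have a2 : nG ((127 : I) : ℕ) = 0 := by decide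
      have a3 : nI ((0 : I) : ℕ) = 0 := by decide
      have a4 : nG ((0 : I) : ℕ) = 0 := by decide
      rw [a1] at d1
      rw [a2] at d2
      simp only [sI, sG, a3, a4] at e1 e2 ⊢
      constructor
      · have d1' : (nI (p : ℕ) : ZMod 2) + (nI (q : ℕ) : ZMod 2) = 0 := by
          rw [← d1]; simp
        have e1' : (vI σ : ZMod 2) = (vI τ : ZMod 2) + (nI (q : ℕ) : ZMod 2) := by
          rw [e1]; simp
        rw [e1', add_assoc, add_comm (nI (q : ℕ) : ZMod 2), d1', add_zero]
      · omega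
  exact congrFun key p

/-- the piece SYM -/
theorem sym (hL : S_LWS) (hT : S_TST) : S_SYM := by
  refine ⟨?_, lamT, lamT_symm hL, lamT_nondeg hL hT⟩
  exact (inferInstance : Module.Finite ℚ ↥Tsub)

end Run7.h229.Nak
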