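import Pool.Agent.Run7.h229.Nak.TP

set_option autoImplicit false
set_option linter.unusedSectionVars false
set_option linter.unusedVariables false
open scoped TensorProduct
open CategoryTheory MulOpposite

/-!
# Modules over a tensor product of algebras
-/

namespace Pool.Agent.Run7.h229.Nak

open Pool.Agent.Helper426GSC Pool.Agent.Helper426Tach Pool.Agent.Helper426TauT
  Pool.Agent.H546R3.Yam _root_.Run7.h692 _root_.Run7.h692.Eq

attribute [local instance] CI.acg CI.mod

section CN

/-- the coinduced module of linear maps from `G` to the `T`-module `Y` -/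
@[nolint unusedArguments]
def CN (K G T Y : Type) [Field K] [Ring G] [Algebra K G] [AddCommGroup Y] [Module K Y] : Type :=
  G →ₗ[K] Y

variable (K G T Y : Type) [Field K] [Ring G] [Algebra K G] [Ring T] [Algebra K T]
  [AddCommGroup Y] [Module K Y] [Module T Y] [IsScalarTower K T Y]

instance CN.acg : AddCommGroup (CN K G T Y) := inferInstanceAs (AddCommGroup (G →ₗ[K] Y))

variable {K G T Y}

/-- evaluation -/
def CN.ev (f : CN K G T Y) (x : G) : Y := (show G →ₗ[K] Y from f) x

/-- constructor -/
def CN.mk (f : G →ₗ[K] Y) : CN K G T Y := f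

theorem CN.ev_mk (f : G →ₗ[K] Y) (x : G) : (CN.mk f : CN K G T Y).ev x = f x := rfl
theorem CN.ext {f g : CN K G T Y} (h : ∀ x, f.ev x = g.ev x) : f = g := LinearMap.ext h
theorem CN.add_ev (f g : CN K G T Y) (x : G) : (f + g).ev x = f.ev x + g.ev x := rfl
theorem CN.zero_ev (x : G) : (0 : CN K G T Y).ev x = 0 := rfl
theorem CN.ev_add (f : CN K G T Y) (x y : G) : f.ev (x + y) = f.ev x + f.ev y :=
  (show G →ₗ[K] Y from f).map_add x y
theorem CN.ev_zero (f : CN K G T Y) : f.ev 0 = 0 := (show G →ₗ[K] Y from f).map_zero
theorem CN.ev_smul' (f : CN K G T Y) (c : K) (x : G) : f.ev (c • x) = c • f.ev x :=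
  (show G →ₗ[K] Y from f).map_smul c x

instance CN.smulG : SMul G (CN K G T Y) :=
  ⟨fun a f => CN.mk ((show G →ₗ[K] Y from f) ∘ₗ LinearMap.mulRight K a)⟩

theorem CN.smul_ev (a : G) (f : CN K G T Y) (x : G) : (a • f).ev x = f.ev (x * a) := rfl

instance CN.modG : Module G (CN K G T Y) where
  one_smul f := CN.ext fun x => by rw [CN.smul_ev, mul_one]
  mul_smul a b f := CN.ext fun x => by rw [CN.smul_ev, CN.smul_ev, CN.smul_ev, mul_assoc]
  smul_zero a := CN.ext fun x => by rw [CN.smul_ev, CN.zero_ev, CN.zero_ev]
  smul_add a f g := CN.ext fun x => by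
    rw [CN.smul_ev, CN.add_ev, CN.add_ev, CN.smul_ev, CN.smul_ev]
  add_smul a b f := CN.ext fun x => by
    rw [CN.smul_ev, CN.add_ev, CN.smul_ev, CN.smul_ev, mul_add, CN.ev_add]
  zero_smul f := CN.ext fun x => by rw [CN.smul_ev, CN.zero_ev, mul_zero, CN.ev_zero]

instance CN.modK : Module K (CN K G T Y) := inferInstanceAs (Module K (G →ₗ[K] Y))

theorem CN.ksmul_ev (c : K) (f : CN K G T Y) (x : G) : (c • f).ev x = c • f.ev x := rfl

instance CN.towerG : IsScalarTower K G (CN K G T Y) := ⟨fun c a f => CN.ext fun x => by
  rw [CN.smul_ev, CN.ksmul_ev, CN.smul_ev, mul_smul_comm, CN.ev_smul']⟩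

instance CN.finite [FiniteDimensional K G] [FiniteDimensional K Y] :
    FiniteDimensional K (CN K G T Y) := inferInstanceAs (FiniteDimensional K (G →ₗ[K] Y))

theorem comm_of (T : Type) [Ring T] [Algebra K T] [Module T Y] [IsScalarTower K T Y]
    (c : K) (t : T) (y : Y) : t • c • y = c • t • y := by
  rw [← algebraMap_smul T c y, ← algebraMap_smul T c (t • y), ← mul_smul, ← mul_smul,
    Algebra.commutes]

/-- the action of `T` on values -/
instance CN.modT : Module T (CN K G T Y) where
  smul t f := CN.mk
    { toFun := fun x => t • f.ev x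
      map_add' := fun x y => by rw [CN.ev_add, smul_add]
      map_smul' := fun c x => by rw [CN.ev_smul', comm_of T c t, RingHom.id_apply] }
  one_smul f := CN.ext fun x => by
    change (1 : T) • f.ev x = f.ev x
    rw [one_smul]
  mul_smul a b f := CN.ext fun x => by
    change (a * b) • f.ev x = a • b • f.ev x
    rw [mul_smul]
  smul_zero a := CN.ext fun x => by
    change a • (0 : CN K G T Y).ev x = 0
    rw [CN.zero_ev, smul_zero]
  smul_add a f g := CN.ext fun x => by
    change a • (f + g).ev x = a • f.ev x + a • g.ev x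
    rw [CN.add_ev, smul_add]
  add_smul a b f := CN.ext fun x => by
    change (a + b) • f.ev x = a • f.ev x + b • f.ev x
    rw [add_smul]
  zero_smul f := CN.ext fun x => by
    change (0 : T) • f.ev x = 0
    rw [zero_smul]

theorem CN.tsmul_ev (t : T) (f : CN K G T Y) (x : G) : (t • f).ev x = t • f.ev x := rfl

instance CN.towerT : IsScalarTower K T (CN K G T Y) := ⟨fun c a f => CN.ext fun x => by
  rw [CN.tsmul_ev, CN.ksmul_ev, CN.tsmul_ev, smul_assoc]⟩

instance CN.commGT : SMulCommClass G T (CN K G T Y) := ⟨fun g t f => CN.ext fun x => rfl⟩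

/-- the action of the tensor product -/
noncomputable instance CN.modR : Module (TP K G T) (CN K G T Y) :=
  (TensorProduct.Algebra.module : Module (G ⊗[K] T) (CN K G T Y))

theorem CN.rsmul (g : G) (t : T) (f : CN K G T Y) : (tp K g t) • f = g • t • f :=
  TensorProduct.Algebra.smul_def g t f

instance CN.towerR : IsScalarTower K (TP K G T) (CN K G T Y) := ⟨fun c r f => by
  induction r using TP.ind with
  | h0 =>
    rw [smul_zero, zero_smul, smul_zero]
  | ht g t =>
    rw [← tp_smul_left, CN.rsmul, CN.rsmul, smul_assoc]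
  | ha r r' h h' =>
    rw [smul_add, add_smul, add_smul, smul_add, h, h']⟩

/-- restriction to `G` -/
theorem CN.exG [FiniteDimensional K Y] {P : Type} [AddCommGroup P] [Module G P]
    (h : EV G (QD K G) P) : EV G (CN K G T Y) P := by
  intro n
  let b := Module.finBasis K Y
  let s : CN K G T Y →ₗ[G] (Fin (Module.finrank K Y) → QD K G) :=
    { toFun := fun f i => mkQ ((b.coord i) ∘ₗ (show G →ₗ[K] Y from f))
      map_add' := fun f g => by
        funext i
        apply qd_ext
        intro x
        change b.coord i ((f + g).ev x) = b.coord i (f.ev x) + b.coord i (g.ev x)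
        rw [CN.add_ev, map_add]
      map_smul' := fun a f => rfl }
  let r : (Fin (Module.finrank K Y) → QD K G) →ₗ[G] CN K G T Y :=
    { toFun := fun φ => CN.mk
        { toFun := fun x => ∑ i, Helper426GSC.ev (φ i) x • b i
          map_add' := fun x y => by
            rw [← Finset.sum_add_distrib]
            refine Finset.sum_congr rfl fun i _ => ?_
            rw [ev_add', add_smul]
          map_smul' := fun c x => by
            rw [RingHom.id_apply, Finset.smul_sum]
            refine Finset.sum_congr rfl fun i _ => ?_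
            rw [Helper426GSC.ev_smul', mul_smul] }
      map_add' := fun φ ψ => CN.ext fun x => by
        rw [CN.add_ev, CN.ev_mk, CN.ev_mk, CN.ev_mk]
        change ∑ i, Helper426GSC.ev (φ i + ψ i) x • b i = ∑ i, Helper426GSC.ev (φ i) x • b i +
          ∑ i, Helper426GSC.ev (ψ i) x • b i
        rw [← Finset.sum_add_distrib]
        refine Finset.sum_congr rfl fun i _ => ?_
        rw [Helper426GSC.ev_add, add_smul]
      map_smul' := fun a φ => rfl }
  refine ((h n).powL (Module.finrank K Y)).retrL s r fun f => CN.ext fun x => ?_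
  change ∑ i, (b.coord i) (f.ev x) • b i = f.ev x
  exact b.sum_repr (f.ev x)

/-- restriction to `T` -/
theorem CN.exT [FiniteDimensional K G] {P : Type} [AddCommGroup P] [Module T P]
    (h : EV T Y P) : EV T (CN K G T Y) P := by
  intro n
  let b := Module.finBasis K G
  let s : CN K G T Y →ₗ[T] (Fin (Module.finrank K G) → Y) :=
    { toFun := fun f i => f.ev (b i)
      map_add' := fun f g => rfl
      map_smul' := fun a f => rfl }
  let r : (Fin (Module.finrank K G) → Y) →ₗ[T] CN K G T Y :=
    { toFun := fun φ => CN.mk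
        { toFun := fun x => ∑ i, (b.coord i x) • φ i
          map_add' := fun x y => by
            rw [← Finset.sum_add_distrib]
            refine Finset.sum_congr rfl fun i _ => ?_
            rw [map_add, add_smul]
          map_smul' := fun c x => by
            rw [RingHom.id_apply, Finset.smul_sum]
            refine Finset.sum_congr rfl fun i _ => ?_
            rw [map_smul, smul_eq_mul, mul_smul] }
      map_add' := fun φ ψ => CN.ext fun x => by
        rw [CN.add_ev, CN.ev_mk, CN.ev_mk, CN.ev_mk]
        change ∑ i, (b.coord i x) • (φ i + ψ i) = ∑ i, (b.coord i x) • φ i +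
          ∑ i, (b.coord i x) • ψ i
        rw [← Finset.sum_add_distrib]
        refine Finset.sum_congr rfl fun i _ => ?_
        rw [smul_add]
      map_smul' := fun a φ => CN.ext fun x => by
        rw [RingHom.id_apply, CN.tsmul_ev, CN.ev_mk, CN.ev_mk]
        change ∑ i, (b.coord i x) • (a • φ i) = a • ∑ i, (b.coord i x) • φ i
        rw [Finset.smul_sum]
        refine Finset.sum_congr rfl fun i _ => ?_
        rw [comm_of T (b.coord i x) a] }
  refine ((h n).powL (Module.finrank K G)).retrL s r fun f => CN.ext fun x => ?_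
  change ∑ i, (b.coord i x) • f.ev (b i) = f.ev x
  have h1 : f.ev x = f.ev (∑ i, (b.coord i x) • b i) := by
    congr 1
    exact (b.sum_repr x).symm
  rw [h1]
  change _ = (show G →ₗ[K] Y from f) (∑ i, (b.coord i x) • b i)
  rw [map_sum]
  refine Finset.sum_congr rfl fun i _ => ?_
  rw [map_smul]
  rfl

end CN

end Pool.Agent.Run7.h229.Nak
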