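import Pool.Agent.Run7.h229.Nak.Gen

set_option autoImplicit false
set_option linter.unusedSectionVars false
set_option linter.unusedVariables false
open scoped TensorProduct
open CategoryTheory MulOpposite

/-!
# The tensor product of two algebras, as a type with a ring structure
-/

namespace Pool.Agent.Run7.h229.Nak

open Pool.Agent.Helper426GSC Pool.Agent.Helper426Tach Pool.Agent.Helper426TauT
  Pool.Agent.H546R3.Yam _root_.Run7.h692 _root_.Run7.h692.Eq

/-- the tensor product -/
def TP (K G T : Type) [Field K] [Ring G] [Algebra K G] [Ring T] [Algebra K T] : Type :=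
  G ⊗[K] T

section TP

variable (K : Type) {G T : Type} [Field K] [Ring G] [Algebra K G] [Ring T] [Algebra K T]

noncomputable instance TP.ring : Ring (TP K G T) := inferInstanceAs (Ring (G ⊗[K] T))

noncomputable instance TP.algebra : Algebra K (TP K G T) :=
  inferInstanceAs (Algebra K (G ⊗[K] T))

instance TP.finite [FiniteDimensional K G] [FiniteDimensional K T] :
    FiniteDimensional K (TP K G T) :=
  inferInstanceAs (Module.Finite K (G ⊗[K] T))

/-- pure tensors -/
noncomputable def tp (g : G) (t : T) : TP K G T := g ⊗ₜ[K] t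

theorem tp_mul (g g' : G) (t t' : T) : tp K g t * tp K g' t' = tp K (g * g') (t * t') :=
  Algebra.TensorProduct.tmul_mul_tmul g g' t t'

theorem tp_add_left (g g' : G) (t : T) : tp K (g + g') t = tp K g t + tp K g' t :=
  TensorProduct.add_tmul g g' t

theorem tp_add_right (g : G) (t t' : T) : tp K g (t + t') = tp K g t + tp K g t' :=
  TensorProduct.tmul_add g t t'

theorem tp_smul_left (c : K) (g : G) (t : T) : tp K (c • g) t = c • tp K g t :=
  (TensorProduct.smul_tmul' c g t).symm

theorem tp_smul_right (c : K) (g : G) (t : T) : tp K g (c • t) = c • tp K g t :=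
  TensorProduct.tmul_smul c g t

theorem tp_zero_left (t : T) : tp K (0 : G) t = 0 := TensorProduct.zero_tmul G t

theorem tp_zero_right (g : G) : tp K g (0 : T) = 0 := TensorProduct.tmul_zero T g

theorem tp_sum_right (g : G) {ι : Type} (s : Finset ι) (f : ι → T) :
    tp K g (∑ i ∈ s, f i) = ∑ i ∈ s, tp K g (f i) := TensorProduct.tmul_sum g s f

theorem tp_one : tp K (1 : G) (1 : T) = 1 := rfl

variable {K}

theorem TP.ind {p : TP K G T → Prop} (r : TP K G T) (h0 : p 0) (ht : ∀ g t, p (tp K g t))
    (ha : ∀ r r', p r → p r' → p (r + r')) : p r :=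
  TensorProduct.induction_on (motive := fun r => p r) r h0 ht ha

/-- linear maps from bilinear maps -/
noncomputable def TP.lift {M : Type} [AddCommGroup M] [Module K M] (f : G →ₗ[K] T →ₗ[K] M) :
    TP K G T →ₗ[K] M := TensorProduct.lift f

theorem TP.lift_tp {M : Type} [AddCommGroup M] [Module K M] (f : G →ₗ[K] T →ₗ[K] M) (g : G)
    (t : T) : TP.lift f (tp K g t) = f g t := rfl

variable (K G T)

/-- the inclusion of the first factor -/
noncomputable def iG : G →+* TP K G T :=
  (Algebra.TensorProduct.includeLeft : G →ₐ[K] G ⊗[K] T).toRingHom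

/-- the inclusion of the second factor -/
noncomputable def iT : T →+* TP K G T :=
  (Algebra.TensorProduct.includeRight : T →ₐ[K] G ⊗[K] T).toRingHom

variable {K G T}

theorem iG_apply (g : G) : iG K G T g = tp K g (1 : T) := rfl

theorem iT_apply (t : T) : iT K G T t = tp K (1 : G) t := rfl

theorem bijG {n : ℕ} (b : Module.Basis (Fin n) K T) :
    Function.Bijective (fun c : Fin n → G => ∑ j, iG K G T (c j) * tp K (1 : G) (b j)) := by
  classical
  have h1 : ∀ c : Fin n → G,
      (∑ j, iG K G T (c j) * tp K (1 : G) (b j)) = (TensorProduct.equivFinsuppOfBasisRight b).symm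
          (Finsupp.equivFunOnFinite.symm c) := by
    intro c
    rw [TensorProduct.equivFinsuppOfBasisRight_symm_apply, Finsupp.sum_fintype]
    · refine Finset.sum_congr rfl fun j _ => ?_
      rw [iG_apply, tp_mul, mul_one, one_mul]
      rfl
    · intro i
      exact TensorProduct.zero_tmul _ _
  have h2 : (fun c : Fin n → G => ∑ j, iG K G T (c j) * tp K (1 : G) (b j)) =
      (fun c => (TensorProduct.equivFinsuppOfBasisRight b).symm
          (Finsupp.equivFunOnFinite.symm c)) := funext h1
  rw [h2]
  exact (TensorProduct.equivFinsuppOfBasisRight b).symm.bijective.comp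
    Finsupp.equivFunOnFinite.symm.bijective

theorem bijT {n : ℕ} (b : Module.Basis (Fin n) K G) :
    Function.Bijective (fun c : Fin n → T => ∑ j, iT K G T (c j) * tp K (b j) (1 : T)) := by
  classical
  have h1 : ∀ c : Fin n → T,
      (∑ j, iT K G T (c j) * tp K (b j) (1 : T)) = (TensorProduct.equivFinsuppOfBasisLeft b).symm
          (Finsupp.equivFunOnFinite.symm c) := by
    intro c
    rw [TensorProduct.equivFinsuppOfBasisLeft_symm_apply, Finsupp.sum_fintype]
    · refine Finset.sum_congr rfl fun j _ => ?_
      rw [iT_apply, tp_mul, mul_one, one_mul]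
      rfl
    · intro i
      exact TensorProduct.tmul_zero _ _
  have h2 : (fun c : Fin n → T => ∑ j, iT K G T (c j) * tp K (b j) (1 : T)) =
      (fun c => (TensorProduct.equivFinsuppOfBasisLeft b).symm
          (Finsupp.equivFunOnFinite.symm c)) := funext h1
  rw [h2]
  exact (TensorProduct.equivFinsuppOfBasisLeft b).symm.bijective.comp
    Finsupp.equivFunOnFinite.symm.bijective

end TP

end Pool.Agent.Run7.h229.Nak
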